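import Pool.Agent.H934R2.Ch.Cls

/-!
Attracting cycles, the trap region, and the trichotomy.
-/

set_option autoImplicit false

namespace Pool.Agent.H934R2.Ch

open Real Filter Topology

/-- `y` lies on an attracting cycle of `f` contained in `(0,∞)` -/
def AttrPt (y : ℝ) : Prop :=
  0 < y ∧ 0 < Function.minimalPeriod f y ∧ |deriv (f^[Function.minimalPeriod f y]) y| < 1

/-- the orbit of `x` converges to the cycle of `y` -/
def Attracts (y x : ℝ) : Prop :=
  ∃ j : ℕ, Tendsto (fun k : ℕ => f^[k * Function.minimalPeriod f y + j] x) atTop (𝓝 y)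

/-- the trap region `D = ⋃_{n ≥ 1} [n, n + b_n]` -/
def D : Set ℝ := {x | ∃ n : ℕ, 1 ≤ n ∧ x ∈ Set.Icc (n : ℝ) (n + b n)}

theorem b_le {n : ℕ} (hn : 1 ≤ n) : b n ≤ 5 / 18 := by
  unfold b
  have : (1 : ℝ) ≤ n := by exact_mod_cast hn
  rw [div_le_div_iff₀ (by positivity) (by norm_num)]
  linarith

/-- two trapping intervals with nearby points coincide -/
theorem near_eq {n m : ℕ} (hn : 1 ≤ n) (hm : 1 ≤ m) {x y : ℝ}
    (hx : x ∈ Set.Icc (n : ℝ) (n + b n)) (hy : y ∈ Set.Icc (m : ℝ) (m + b m))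
    (h : |x - y| ≤ 1 / 2) : n = m := by
  have h1 := b_le hn
  have h2 := b_le hm
  rw [abs_le] at h
  obtain ⟨h3, h4⟩ := h
  obtain ⟨hx1, hx2⟩ := hx
  obtain ⟨hy1, hy2⟩ := hy
  have h5 : (n : ℝ) < m + 1 := by linarith
  have h6 : (m : ℝ) < n + 1 := by linarith
  have h7 : n < m + 1 := by exact_mod_cast h5
  have h8 : m < n + 1 := by exact_mod_cast h6
  omega

/-- periodic points in the trap shadow Collatz cycles -/
theorem per_D {n : ℕ} (hn : 1 ≤ n) {y : ℝ} (hy : y ∈ Set.Icc (n : ℝ) (n + b n)) {p : ℕ}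
    (hp : f^[p] y = y) : T^[p] n = n := by
  have h := shadow hn hy p
  rw [hp] at h
  exact near_eq (T_iter_pos hn p) hn h hy (by simp)

/-- a cycle attracting a point of the trap shadows a Collatz cycle -/
theorem attracts_D {n : ℕ} (hn : 1 ≤ n) {x : ℝ} (hx : x ∈ Set.Icc (n : ℝ) (n + b n)) {y : ℝ}
    (h0 : 0 < Function.minimalPeriod f y) (h : Attracts y x) :
    ∃ m : ℕ, 1 ≤ m ∧ y ∈ Set.Icc (m : ℝ) (m + b m) ∧
      (∀ k, ∃ i, k ≤ i ∧ T^[i] n = m) ∧ T^[Function.minimalPeriod f y] m = m := by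
  obtain ⟨j, hj⟩ := h
  set p := Function.minimalPeriod f y with hp
  have hu : ∀ k, f^[k * p + j] x ∈ Set.Icc ((T^[k * p + j] n : ℕ) : ℝ)
      ((T^[k * p + j] n : ℕ) + b (T^[k * p + j] n)) := fun k => shadow hn hx _
  rw [Metric.tendsto_atTop] at hj
  obtain ⟨K0, hK0⟩ := hj (1 / 5) (by norm_num)
  have hconst : ∀ k, K0 ≤ k → T^[k * p + j] n = T^[K0 * p + j] n := by
    intro k hk
    apply near_eq (T_iter_pos hn _) (T_iter_pos hn _) (hu k) (hu K0)
    have h1 := hK0 k hk
    have h2 := hK0 K0 le_rfl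
    rw [Real.dist_eq] at h1 h2
    have h3 := abs_sub_lt_iff.1 h1
    have h4 := abs_sub_lt_iff.1 h2
    rw [abs_le]
    constructor <;> linarith [h3.1, h3.2, h4.1, h4.2]
  refine ⟨T^[K0 * p + j] n, T_iter_pos hn _, ?_, ?_, ?_⟩
  · have hcl : IsClosed (Set.Icc ((T^[K0 * p + j] n : ℕ) : ℝ)
      ((T^[K0 * p + j] n : ℕ) + b (T^[K0 * p + j] n))) := isClosed_Icc
    have htend : Tendsto (fun k : ℕ => f^[k * p + j] x) atTop (𝓝 y) := Metric.tendsto_atTop.2 hj
    apply hcl.mem_of_tendsto htend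
    filter_upwards [eventually_ge_atTop K0] with k hk
    have := hu k
    rw [hconst k hk] at this
    exact this
  · intro k
    refine ⟨(K0 + k) * p + j, ?_, hconst _ (by omega)⟩
    nlinarith
  · have h1 := hconst (K0 + 1) (by omega)
    have h2 : (K0 + 1) * p + j = p + (K0 * p + j) := by ring
    rw [h2, Function.iterate_add_apply] at h1
    exact h1

theorem D_forward {x : ℝ} (hx : x ∈ D) (k : ℕ) : f^[k] x ∈ D := by
  obtain ⟨n, hn, h⟩ := hx
  exact ⟨T^[k] n, T_iter_pos hn k, shadow hn h k⟩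

/-- if the cycle of a periodic point meets `D` then it is contained in `D` -/
theorem D_of_iter {y : ℝ} (h0 : 0 < Function.minimalPeriod f y) {i : ℕ} (h : f^[i] y ∈ D) : y ∈ D := by
  obtain ⟨p, hp⟩ : ∃ p, p = Function.minimalPeriod f y := ⟨_, rfl⟩
  have hper : f^[p] y = y := by rw [hp]; exact Function.iterate_minimalPeriod
  have h1 : f^[p * i] y = y := by
    rw [Function.iterate_mul]; exact Function.iterate_fixed hper i
  have h2 : i ≤ p * i := Nat.le_mul_of_pos_left i (by omega)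
  have h3 := D_forward h (p * i - i)
  rw [← Function.iterate_add_apply, Nat.sub_add_cancel h2, h1] at h3
  exact h3

/-- the two known attracting cycles, given the point `a₂` -/
def Known (a : ℝ) (y : ℝ) : Prop := y = 1 ∨ y = 2 ∨ y = a ∨ y = f a

/-- an attracting periodic point over the Collatz cycle `{1,2}` is one of the four known points -/
theorem known_of_le_two {a : ℝ} (ha : a ∈ Set.Icc (1.19 : ℝ) 1.196) (hga : g a = a)
    {y : ℝ} (hy : AttrPt y) {m : ℕ} (hm : 1 ≤ m) (hm2 : m ≤ 2)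
    (h : y ∈ Set.Icc (m : ℝ) (m + b m)) : Known a y := by
  obtain ⟨_, hp, hmul⟩ := hy
  obtain rfl | rfl : m = 1 ∨ m = 2 := by omega
  · rw [b1] at h
    rcases cls_J1 ha hga (by have := h.1; push_cast at this; exact this)
      (by have := h.2; push_cast at this; exact this) hp hmul with h1 | h1
    · left; exact h1
    · right; right; left; exact h1
  · rw [b2] at h
    rcases cls_J2 ha hga (by have := h.1; push_cast at this; exact this)
      (by have := h.2; push_cast at this; exact this) hp hmul with h1 | h1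
    · right; left; exact h1
    · right; right; right; exact h1

/-- **Trichotomy** for the attracting cycles of `f` in `(0,∞)`. -/
theorem trichotomy {a : ℝ} (ha : a ∈ Set.Icc (1.19 : ℝ) 1.196) (hga : g a = a)
    {y : ℝ} (hy : AttrPt y) :
    Known a y ∨
    (∃ m : ℕ, 3 ≤ m ∧ T^[Function.minimalPeriod f y] m = m ∧ y ∈ Set.Icc (m : ℝ) (m + b m)) ∨
    ((∀ i, f^[i] y ∉ D) ∧ ∀ x ∈ D, ¬ Attracts y x) := by
  by_cases hD : y ∈ D
  · obtain ⟨n, hn, h⟩ := hD
    have hper : f^[Function.minimalPeriod f y] y = y := Function.iterate_minimalPeriod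
    have hT := per_D hn h hper
    rcases Nat.lt_or_ge n 3 with h3 | h3
    · left; exact known_of_le_two ha hga hy hn (by omega) h
    · right; left; exact ⟨n, h3, hT, h⟩
  · right; right
    refine ⟨fun i hi => hD (D_of_iter hy.2.1 hi), ?_⟩
    rintro x ⟨n, hn, hx⟩ hatt
    obtain ⟨m, hm, hym, _, _⟩ := attracts_D hn hx hy.2.1 hatt
    exact hD ⟨m, hm, hym⟩

/-- once the Collatz orbit has reached `1` it stays in `{1,2}` -/
theorem T_after_one {n k : ℕ} (h : T^[k] n = 1) {i : ℕ} (hi : k ≤ i) : T^[i] n = 1 ∨ T^[i] n = 2 := by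
  obtain ⟨j, rfl⟩ : ∃ j, i = j + k := ⟨i - k, by omega⟩
  rw [Function.iterate_add_apply, h]
  induction j with
  | zero => left; rfl
  | succ j ih =>
    rw [Function.iterate_succ_apply']
    rcases ih (by omega) with ih | ih <;> rw [ih]
    · right; decide
    · left; decide

/-- if the Collatz orbit of `n` reaches `1` then no attracting cycle other than the two known
ones attracts a point of `[n, n + b_n]` -/
theorem reach_one {a : ℝ} (ha : a ∈ Set.Icc (1.19 : ℝ) 1.196) (hga : g a = a)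
    {n : ℕ} (hn : 1 ≤ n) {k : ℕ} (hk : T^[k] n = 1) {x : ℝ}
    (hx : x ∈ Set.Icc (n : ℝ) (n + b n)) {y : ℝ} (hy : AttrPt y) (h : Attracts y x) :
    Known a y := by
  obtain ⟨m, hm, hym, hinf, _⟩ := attracts_D hn hx hy.2.1 h
  obtain ⟨i, hi, him⟩ := hinf k
  have := T_after_one hk hi
  rw [him] at this
  exact known_of_le_two ha hga hy hm (by omega) hym

end Pool.Agent.H934R2.Ch
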