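import Mathlib

/-!
Chamberland's real-analytic extension `f` of the Collatz map `T`: definitions and the trap theorem.
-/

set_option autoImplicit false

namespace Pool.Agent.H934R2.Ch

open Real

/-- Chamberland's map `f(x) = x + 1/4 - (2x+1)/4 * cos(pi x)` -/
noncomputable def f (x : ℝ) : ℝ := x + 1 / 4 - (2 * x + 1) / 4 * Real.cos (Real.pi * x)

/-- the Collatz map `T(n) = n/2` (`n` even), `(3n+1)/2` (`n` odd) -/
def T (n : ℕ) : ℕ := if n % 2 = 0 then n / 2 else (3 * n + 1) / 2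

/-- the length `b_n = 5/(6(2n+1))` of the trapping interval `[n, n + b_n]` -/
noncomputable def b (n : ℕ) : ℝ := 5 / (6 * (2 * (n : ℝ) + 1))

theorem b_pos (n : ℕ) : 0 < b n := by
  unfold b; positivity

/-! ### Taylor bounds for sine and cosine -/

theorem sin_ub1 {t : ℝ} (ht : 0 ≤ t) : Real.sin t ≤ t := Real.sin_le ht

theorem cos_lb2 (t : ℝ) : 1 - t ^ 2 / 2 ≤ Real.cos t := Real.one_sub_sq_div_two_le_cos

theorem sin_lb3 {t : ℝ} (ht : 0 ≤ t) : t - t ^ 3 / 6 ≤ Real.sin t := by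
  have key : MonotoneOn (fun s : ℝ => Real.sin s - (s - s ^ 3 / 6)) (Set.Ici 0) := by
    apply monotoneOn_of_deriv_nonneg (convex_Ici 0)
    · fun_prop
    · fun_prop
    · intro s hs
      have : deriv (fun s : ℝ => Real.sin s - (s - s ^ 3 / 6)) s = Real.cos s - (1 - 3 * s ^ 2 / 6) := by
        have h : HasDerivAt (fun s : ℝ => Real.sin s - (s - s ^ 3 / 6))
            (Real.cos s - (1 - ((3 : ℕ) : ℝ) * s ^ 2 * 1 / 6)) s := by
          have h3 := ((hasDerivAt_id s).pow 3).div_const 6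
          exact (Real.hasDerivAt_sin s).sub ((hasDerivAt_id s).sub h3)
        rw [h.deriv]; push_cast; ring
      rw [this]
      have := cos_lb2 s
      linarith
  have h := key (Set.mem_Ici.2 le_rfl) (Set.mem_Ici.2 ht) ht
  simp only [Real.sin_zero] at h
  linarith

theorem cos_ub4 {t : ℝ} (ht : 0 ≤ t) : Real.cos t ≤ 1 - t ^ 2 / 2 + t ^ 4 / 24 := by
  have key : MonotoneOn (fun s : ℝ => 1 - s ^ 2 / 2 + s ^ 4 / 24 - Real.cos s) (Set.Ici 0) := by
    apply monotoneOn_of_deriv_nonneg (convex_Ici 0)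
    · fun_prop
    · fun_prop
    · intro s hs
      rw [interior_Ici] at hs
      have : deriv (fun s : ℝ => 1 - s ^ 2 / 2 + s ^ 4 / 24 - Real.cos s) s
          = Real.sin s - (s - s ^ 3 / 6) := by
        have h : HasDerivAt (fun s : ℝ => 1 - s ^ 2 / 2 + s ^ 4 / 24 - Real.cos s)
            ((0 - ((2 : ℕ) : ℝ) * s ^ 1 * 1 / 2) + ((4 : ℕ) : ℝ) * s ^ 3 * 1 / 24 - (- Real.sin s)) s := by
          have h2 := ((hasDerivAt_id s).pow 2).div_const 2
          have h4 := ((hasDerivAt_id s).pow 4).div_const 24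
          exact (((hasDerivAt_const s (1 : ℝ)).sub h2).add h4).sub (Real.hasDerivAt_cos s)
        rw [h.deriv]; push_cast; ring
      rw [this]
      have := sin_lb3 (le_of_lt hs)
      linarith
  have h := key (Set.mem_Ici.2 le_rfl) (Set.mem_Ici.2 ht) ht
  simp only [Real.cos_zero] at h
  norm_num at h
  linarith

theorem sin_ub5 {t : ℝ} (ht : 0 ≤ t) : Real.sin t ≤ t - t ^ 3 / 6 + t ^ 5 / 120 := by
  have key : MonotoneOn (fun s : ℝ => s - s ^ 3 / 6 + s ^ 5 / 120 - Real.sin s) (Set.Ici 0) := by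
    apply monotoneOn_of_deriv_nonneg (convex_Ici 0)
    · fun_prop
    · fun_prop
    · intro s hs
      rw [interior_Ici] at hs
      have : deriv (fun s : ℝ => s - s ^ 3 / 6 + s ^ 5 / 120 - Real.sin s) s
          = 1 - s ^ 2 / 2 + s ^ 4 / 24 - Real.cos s := by
        have h : HasDerivAt (fun s : ℝ => s - s ^ 3 / 6 + s ^ 5 / 120 - Real.sin s)
            ((1 - ((3 : ℕ) : ℝ) * s ^ 2 * 1 / 6) + ((5 : ℕ) : ℝ) * s ^ 4 * 1 / 120 - Real.cos s) s := by
          have h3 := ((hasDerivAt_id s).pow 3).div_const 6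
          have h5 := ((hasDerivAt_id s).pow 5).div_const 120
          exact (((hasDerivAt_id s).sub h3).add h5).sub (Real.hasDerivAt_sin s)
        rw [h.deriv]; push_cast; ring
      rw [this]
      have := cos_ub4 (le_of_lt hs)
      linarith
  have h := key (Set.mem_Ici.2 le_rfl) (Set.mem_Ici.2 ht) ht
  simp only [Real.sin_zero] at h
  norm_num at h
  linarith

theorem cos_lb6 {t : ℝ} (ht : 0 ≤ t) : 1 - t ^ 2 / 2 + t ^ 4 / 24 - t ^ 6 / 720 ≤ Real.cos t := by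
  have key : MonotoneOn (fun s : ℝ => Real.cos s - (1 - s ^ 2 / 2 + s ^ 4 / 24 - s ^ 6 / 720))
      (Set.Ici 0) := by
    apply monotoneOn_of_deriv_nonneg (convex_Ici 0)
    · fun_prop
    · fun_prop
    · intro s hs
      rw [interior_Ici] at hs
      have : deriv (fun s : ℝ => Real.cos s - (1 - s ^ 2 / 2 + s ^ 4 / 24 - s ^ 6 / 720)) s
          = s - s ^ 3 / 6 + s ^ 5 / 120 - Real.sin s := by
        have h : HasDerivAt (fun s : ℝ => Real.cos s - (1 - s ^ 2 / 2 + s ^ 4 / 24 - s ^ 6 / 720))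
            (- Real.sin s - ((0 - ((2 : ℕ) : ℝ) * s ^ 1 * 1 / 2) + ((4 : ℕ) : ℝ) * s ^ 3 * 1 / 24
              - ((6 : ℕ) : ℝ) * s ^ 5 * 1 / 720)) s := by
          have h2 := ((hasDerivAt_id s).pow 2).div_const 2
          have h4 := ((hasDerivAt_id s).pow 4).div_const 24
          have h6 := ((hasDerivAt_id s).pow 6).div_const 720
          exact (Real.hasDerivAt_cos s).sub ((((hasDerivAt_const s (1 : ℝ)).sub h2).add h4).sub h6)
        rw [h.deriv]; push_cast; ring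
      rw [this]
      have := sin_ub5 (le_of_lt hs)
      linarith
  have h := key (Set.mem_Ici.2 le_rfl) (Set.mem_Ici.2 ht) ht
  simp only [Real.cos_zero] at h
  norm_num at h
  linarith

/-! ### the map near an integer -/

theorem cos_even (m : ℕ) (d : ℝ) : Real.cos (Real.pi * ((2 * m : ℕ) + d)) = Real.cos (Real.pi * d) := by
  have : Real.pi * (((2 * m : ℕ) : ℝ) + d) = Real.pi * d + (m : ℕ) * (2 * Real.pi) := by
    push_cast; ring
  rw [this, Real.cos_add_nat_mul_two_pi]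

theorem cos_odd (m : ℕ) (d : ℝ) :
    Real.cos (Real.pi * ((2 * m + 1 : ℕ) + d)) = - Real.cos (Real.pi * d) := by
  have : Real.pi * (((2 * m + 1 : ℕ) : ℝ) + d) = (Real.pi * d + Real.pi) + (m : ℕ) * (2 * Real.pi) := by
    push_cast; ring
  rw [this, Real.cos_add_nat_mul_two_pi, Real.cos_add_pi]

theorem f_even (m : ℕ) (d : ℝ) :
    f ((2 * m : ℕ) + d) = m + ((4 * m + 1) / 4 * (1 - Real.cos (Real.pi * d))
      + d * (1 - Real.cos (Real.pi * d) / 2)) := by
  unfold f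
  rw [cos_even]; push_cast; ring

theorem f_odd (m : ℕ) (d : ℝ) :
    f ((2 * m + 1 : ℕ) + d) = (3 * m + 2) + (d * (1 + Real.cos (Real.pi * d) / 2)
      - (4 * m + 3) / 4 * (1 - Real.cos (Real.pi * d))) := by
  unfold f
  rw [cos_odd]; push_cast; ring

theorem T_even (m : ℕ) : T (2 * m) = m := by
  unfold T; simp

theorem T_odd (m : ℕ) : T (2 * m + 1) = 3 * m + 2 := by
  unfold T
  have h : (2 * m + 1) % 2 ≠ 0 := by omega
  rw [if_neg h]; omega

theorem T_pos {n : ℕ} (hn : 1 ≤ n) : 1 ≤ T n := by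
  unfold T; split_ifs <;> omega

theorem pi_sq_lt : Real.pi ^ 2 < 9.8697 := by
  have h1 := Real.pi_lt_d6
  have h0 := Real.pi_pos
  nlinarith

theorem pi_sq_gt : 9.8695 < Real.pi ^ 2 := by
  have h1 := Real.pi_gt_d6
  have h0 := Real.pi_pos
  nlinarith

theorem trap_even (m : ℕ) (hm : 1 ≤ m) (d : ℝ) (h0 : 0 ≤ d) (h1 : d ≤ b (2 * m)) :
    (m : ℝ) ≤ f ((2 * m : ℕ) + d) ∧ f ((2 * m : ℕ) + d) ≤ m + b m := by
  rw [f_even]
  set c := Real.cos (Real.pi * d) with hc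
  have hc1 : c ≤ 1 := Real.cos_le_one _
  have hc2 : 1 - (Real.pi * d) ^ 2 / 2 ≤ c := cos_lb2 _
  have hmR : (1 : ℝ) ≤ m := by exact_mod_cast hm
  have hpi := pi_sq_lt
  have hpi0 := pi_sq_gt
  -- s = 4m+1, w = s d
  obtain ⟨s, hs⟩ : ∃ s : ℝ, s = 4 * (m : ℝ) + 1 := ⟨_, rfl⟩
  have hs5 : 5 ≤ s := by linarith
  have hd : d ≤ 5 / (6 * s) := by
    have : b (2 * m) = 5 / (6 * s) := by unfold b; rw [hs]; push_cast; ring_nf
    rw [← this]; exact h1
  obtain ⟨w, hw⟩ : ∃ w : ℝ, w = s * d := ⟨_, rfl⟩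
  have hw0 : 0 ≤ w := by rw [hw]; positivity
  have hw1 : w ≤ 5 / 6 := by
    rw [hw]
    have := mul_le_mul_of_nonneg_left hd (by linarith : (0 : ℝ) ≤ s)
    have e : s * (5 / (6 * s)) = 5 / 6 := by field_simp
    linarith
  have hdw : d = w / s := by rw [hw]; field_simp
  constructor
  · have h2 : 0 ≤ (4 * (m : ℝ) + 1) / 4 * (1 - c) := by
      apply mul_nonneg <;> linarith
    have h3 : 0 ≤ d * (1 - c / 2) := by
      apply mul_nonneg <;> linarith
    linarith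
  · -- upper bound
    have hA : (4 * (m : ℝ) + 1) / 4 * (1 - c) ≤ s / 4 * ((Real.pi * d) ^ 2 / 2) := by
      rw [← hs]
      apply mul_le_mul_of_nonneg_left _ (by linarith)
      linarith
    have hB : d * (1 - c / 2) ≤ d * (1 / 2 + (Real.pi * d) ^ 2 / 4) := by
      apply mul_le_mul_of_nonneg_left _ h0
      linarith
    have hb : b m = 5 / (3 * (s + 1)) := by
      unfold b; rw [hs]
      have : (2 * (m : ℝ) + 1) ≠ 0 := by positivity
      have : (4 * (m : ℝ) + 1 + 1) ≠ 0 := by positivity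
      field_simp; ring
    rw [hb]
    have hC : s / 4 * ((Real.pi * d) ^ 2 / 2) + d * (1 / 2 + (Real.pi * d) ^ 2 / 4)
        = (Real.pi ^ 2 * w ^ 2 / 8 + w / 2 + Real.pi ^ 2 * w ^ 3 / (4 * s ^ 2)) / s := by
      rw [hdw]; field_simp; ring
    have hw2 : w ^ 2 ≤ 25 / 36 := by nlinarith
    have hw3 : w ^ 3 ≤ 125 / 216 := by
      have : w ^ 3 = w ^ 2 * w := by ring
      nlinarith [sq_nonneg w]
    have hD : Real.pi ^ 2 * w ^ 2 / 8 + w / 2 + Real.pi ^ 2 * w ^ 3 / (4 * s ^ 2) ≤ 1.34 := by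
      have e1 : Real.pi ^ 2 * w ^ 2 ≤ 9.8697 * (25 / 36) := by
        apply mul_le_mul hpi.le hw2 (by positivity) (by norm_num)
      have e2 : Real.pi ^ 2 * w ^ 3 ≤ 9.8697 * (125 / 216) := by
        apply mul_le_mul hpi.le hw3 (by positivity) (by norm_num)
      have e3 : Real.pi ^ 2 * w ^ 3 / (4 * s ^ 2) ≤ 9.8697 * (125 / 216) / 100 := by
        apply div_le_div₀ (by norm_num) e2 (by norm_num)
        nlinarith
      linarith
    have hE : (1.34 : ℝ) / s ≤ 5 / (3 * (s + 1)) := by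
      rw [div_le_div_iff₀ (by linarith) (by linarith)]
      nlinarith
    have hF : (Real.pi ^ 2 * w ^ 2 / 8 + w / 2 + Real.pi ^ 2 * w ^ 3 / (4 * s ^ 2)) / s ≤ 1.34 / s :=
      div_le_div_of_nonneg_right hD (by linarith)
    linarith

theorem trap_odd (m : ℕ) (d : ℝ) (h0 : 0 ≤ d) (h1 : d ≤ b (2 * m + 1)) :
    (3 * m + 2 : ℝ) ≤ f ((2 * m + 1 : ℕ) + d) ∧
      f ((2 * m + 1 : ℕ) + d) ≤ (3 * m + 2 : ℝ) + b (3 * m + 2) := by
  rw [f_odd]
  set c := Real.cos (Real.pi * d) with hc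
  have hc1 : c ≤ 1 := Real.cos_le_one _
  have hc2 : 1 - (Real.pi * d) ^ 2 / 2 ≤ c := cos_lb2 _
  have hpd : 0 ≤ Real.pi * d := mul_nonneg Real.pi_pos.le h0
  have hc3 : c ≤ 1 - (Real.pi * d) ^ 2 / 2 + (Real.pi * d) ^ 4 / 24 := cos_ub4 hpd
  have hmR : (0 : ℝ) ≤ m := by positivity
  have hpi := pi_sq_lt
  have hpi0 := pi_sq_gt
  obtain ⟨s, hs⟩ : ∃ s : ℝ, s = 4 * (m : ℝ) + 3 := ⟨_, rfl⟩
  have hs3 : 3 ≤ s := by linarith
  have hd : d ≤ 5 / (6 * s) := by
    have : b (2 * m + 1) = 5 / (6 * s) := by unfold b; rw [hs]; push_cast; ring_nf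
    rw [← this]; exact h1
  obtain ⟨w, hw⟩ : ∃ w : ℝ, w = s * d := ⟨_, rfl⟩
  have hw0 : 0 ≤ w := by rw [hw]; positivity
  have hw1 : w ≤ 5 / 6 := by
    rw [hw]
    have := mul_le_mul_of_nonneg_left hd (by linarith : (0 : ℝ) ≤ s)
    have e : s * (5 / (6 * s)) = 5 / 6 := by field_simp
    linarith
  have hdw : d = w / s := by rw [hw]; field_simp
  have hw2 : w ^ 2 ≤ 25 / 36 := by nlinarith
  constructor
  · -- lower bound
    have hA : d * (1 + c / 2) ≥ d * (3 / 2 - (Real.pi * d) ^ 2 / 4) := by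
      apply mul_le_mul_of_nonneg_left _ h0
      linarith
    have hB : (4 * (m : ℝ) + 3) / 4 * (1 - c) ≤ s / 4 * ((Real.pi * d) ^ 2 / 2) := by
      rw [← hs]
      apply mul_le_mul_of_nonneg_left _ (by linarith)
      linarith
    have hC : d * (3 / 2 - (Real.pi * d) ^ 2 / 4) - s / 4 * ((Real.pi * d) ^ 2 / 2)
        = d * (3 / 2 - Real.pi ^ 2 * w ^ 2 / (4 * s ^ 2) - Real.pi ^ 2 * w / 8) := by
      rw [hdw]; field_simp; ring
    have hD : 0 ≤ 3 / 2 - Real.pi ^ 2 * w ^ 2 / (4 * s ^ 2) - Real.pi ^ 2 * w / 8 := by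
      have e1 : Real.pi ^ 2 * w ^ 2 ≤ 9.8697 * (25 / 36) := by
        apply mul_le_mul hpi.le hw2 (by positivity) (by norm_num)
      have e2 : Real.pi ^ 2 * w ≤ 9.8697 * (5 / 6) := by
        apply mul_le_mul hpi.le hw1 hw0 (by norm_num)
      have e3 : Real.pi ^ 2 * w ^ 2 / (4 * s ^ 2) ≤ 9.8697 * (25 / 36) / 36 := by
        apply div_le_div₀ (by norm_num) e1 (by norm_num)
        nlinarith
      linarith
    have hE := mul_nonneg h0 hD
    linarith
  · -- upper bound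
    have hA : d * (1 + c / 2) ≤ d * (3 / 2) := by
      apply mul_le_mul_of_nonneg_left _ h0
      linarith
    have hB : s / 4 * ((Real.pi * d) ^ 2 / 2 - (Real.pi * d) ^ 4 / 24) ≤
        (4 * (m : ℝ) + 3) / 4 * (1 - c) := by
      rw [← hs]
      apply mul_le_mul_of_nonneg_left _ (by linarith)
      linarith
    have hb : b (3 * m + 2) = 5 / (9 * s + 3) := by
      unfold b; rw [hs]; push_cast
      have : (2 * (3 * (m : ℝ) + 2) + 1) ≠ 0 := by positivity
      have : (9 * (4 * (m : ℝ) + 3) + 3) ≠ 0 := by positivity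
      field_simp; ring
    rw [hb]
    have hC : d * (3 / 2) - s / 4 * ((Real.pi * d) ^ 2 / 2 - (Real.pi * d) ^ 4 / 24)
        = (3 / 2 * w - Real.pi ^ 2 * w ^ 2 / 8 + Real.pi ^ 4 * w ^ 4 / (96 * s ^ 2)) / s := by
      rw [hdw]; field_simp; ring
    have hpi4 : Real.pi ^ 4 ≤ 97.42 := by
      have : Real.pi ^ 4 = Real.pi ^ 2 * Real.pi ^ 2 := by ring
      rw [this]; nlinarith
    have hD : 3 / 2 * w - Real.pi ^ 2 * w ^ 2 / 8 + Real.pi ^ 4 * w ^ 4 / (96 * s ^ 2) ≤ 0.5 := by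
      have e1 : 9.8695 * w ^ 2 ≤ Real.pi ^ 2 * w ^ 2 :=
        mul_le_mul_of_nonneg_right hpi0.le (sq_nonneg w)
      have hw4 : 0 ≤ w ^ 4 := by positivity
      have e2 : Real.pi ^ 4 * w ^ 4 ≤ 97.42 * w ^ 4 := mul_le_mul_of_nonneg_right hpi4 hw4
      have e3 : Real.pi ^ 4 * w ^ 4 / (96 * s ^ 2) ≤ 97.42 * w ^ 4 / 864 := by
        apply div_le_div₀ (by positivity) e2 (by norm_num)
        nlinarith
      have e4 : w ^ 4 ≤ 25 / 36 * w ^ 2 := by nlinarith [sq_nonneg w]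
      nlinarith [sq_nonneg (w - 13 / 20)]
    have hE : (0.5 : ℝ) / s ≤ 5 / (9 * s + 3) := by
      rw [div_le_div_iff₀ (by linarith) (by linarith)]
      nlinarith
    have hF : (3 / 2 * w - Real.pi ^ 2 * w ^ 2 / 8 + Real.pi ^ 4 * w ^ 4 / (96 * s ^ 2)) / s ≤ 0.5 / s :=
      div_le_div_of_nonneg_right hD (by linarith)
    linarith

/-- **Trap theorem**: `f` maps `[n, n + b_n]` into `[T n, T n + b_{T n}]` for every `n ≥ 1`. -/
theorem trap {n : ℕ} (hn : 1 ≤ n) {x : ℝ} (h : x ∈ Set.Icc (n : ℝ) (n + b n)) :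
    f x ∈ Set.Icc (T n : ℝ) (T n + b (T n)) := by
  obtain ⟨h1, h2⟩ := h
  obtain ⟨d, rfl⟩ : ∃ d, x = n + d := ⟨x - n, by ring⟩
  have hd0 : 0 ≤ d := by linarith
  have hd1 : d ≤ b n := by linarith
  rcases Nat.even_or_odd' n with ⟨m, rfl | rfl⟩
  · have := trap_even m (by omega) d hd0 hd1
    rw [T_even]; exact this
  · have := trap_odd m d hd0 hd1
    rw [T_odd]; push_cast at this ⊢; exact this

theorem T_iter_pos {n : ℕ} (hn : 1 ≤ n) (k : ℕ) : 1 ≤ T^[k] n := by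
  induction k with
  | zero => simpa using hn
  | succ k ih => rw [Function.iterate_succ_apply']; exact T_pos ih

/-- every point of `[n, n + b_n]` shadows the whole Collatz orbit of `n` -/
theorem shadow {n : ℕ} (hn : 1 ≤ n) {x : ℝ} (h : x ∈ Set.Icc (n : ℝ) (n + b n)) (k : ℕ) :
    f^[k] x ∈ Set.Icc ((T^[k] n : ℕ) : ℝ) ((T^[k] n : ℕ) + b (T^[k] n)) := by
  induction k with
  | zero => simpa using h
  | succ k ih =>
    rw [Function.iterate_succ_apply', Function.iterate_succ_apply']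
    exact trap (T_iter_pos hn k) ih

end Pool.Agent.H934R2.Ch
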