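import Pool.Agent.H934R2.Ch.Num

/-!
The attracting cycles of `f` in `[1, 1+5/18] ∪ [2, 2+1/6]` are exactly `{1,2}` and `{a₂, f a₂}`.
-/

set_option autoImplicit false

namespace Pool.Agent.H934R2.Ch

open Real

/-- second iterate -/
noncomputable def g (x : ℝ) : ℝ := f (f x)

theorem f1_ge {d q : ℝ} (h0 : 0 ≤ d) (h1 : d ≤ 0.3)
    (h : q ≤ 2 + (d * (1 + P (9.86961 * d ^ 2) / 2) - 3 / 4 * (1 - P (9.86961 * d ^ 2)))) :
    q ≤ f (1 + d) := le_trans h (f1_lb h0 h1)

theorem f2_ge {e q : ℝ} (h0 : 0 ≤ e) (h1 : e ≤ 0.3)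
    (h : q ≤ 1 + (5 / 4 * (1 - Q (9.8696 * e ^ 2)) + e * (1 - Q (9.8696 * e ^ 2) / 2))) :
    q ≤ f (2 + e) := le_trans h (f2_lb h0 h1)

/-- grid step: on `[a,c]` we have `g ≥ r` -/
theorem grid {a c q r x : ℝ} (ha : 1 ≤ a) (hc : c ≤ 1.3) (h1 : a ≤ x) (h2 : x ≤ c)
    (hx : x ≤ 1 + 5 / 18)
    (hq : 2 ≤ q) (hqa : q ≤ f a) (hqc : q ≤ f c) (hr : r ≤ f q) : r ≤ g x := by
  have h3 : q ≤ f x := f1_min ha (by linarith) h1 h2 hqa hqc
  have h4 : f x ≤ 2.14 := by
    have := f1_max (d := x - 1) (by linarith) (by linarith)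
    have e : 1 + (x - 1) = x := by ring
    rwa [e] at this
  exact le_trans hr (f_mono2' hq h3 (by linarith))

theorem v1050 : (2.0653 : ℝ) ≤ f 1.05 := by
  have := f1_ge (d := 0.05) (q := 2.0653) (by norm_num) (by norm_num) (by unfold P; norm_num)
  norm_num at this ⊢; exact this
theorem v1059 : (2.075 : ℝ) ≤ f 1.059 := by
  have := f1_ge (d := 0.059) (q := 2.075) (by norm_num) (by norm_num) (by unfold P; norm_num)
  norm_num at this ⊢; exact this
theorem v1072 : (2.0878 : ℝ) ≤ f 1.072 := by
  have := f1_ge (d := 0.072) (q := 2.0878) (by norm_num) (by norm_num) (by unfold P; norm_num)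
  norm_num at this ⊢; exact this
theorem v1092 : (2.1048 : ℝ) ≤ f 1.092 := by
  have := f1_ge (d := 0.092) (q := 2.1048) (by norm_num) (by norm_num) (by unfold P; norm_num)
  norm_num at this ⊢; exact this
theorem v1122 : (2.124 : ℝ) ≤ f 1.122 := by
  have := f1_ge (d := 0.122) (q := 2.124) (by norm_num) (by norm_num) (by unfold P; norm_num)
  norm_num at this ⊢; exact this
theorem v1160 : (2.1372 : ℝ) ≤ f 1.16 := by
  have := f1_ge (d := 0.16) (q := 2.1372) (by norm_num) (by norm_num) (by unfold P; norm_num)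
  norm_num at this ⊢; exact this
theorem v1189 : (2.1387 : ℝ) ≤ f 1.189 := by
  have := f1_ge (d := 0.189) (q := 2.1387) (by norm_num) (by norm_num) (by unfold P; norm_num)
  norm_num at this ⊢; exact this
theorem v1190 : (2.1387 : ℝ) ≤ f 1.19 := by
  have := f1_ge (d := 0.19) (q := 2.1387) (by norm_num) (by norm_num) (by unfold P; norm_num)
  norm_num at this ⊢; exact this
theorem v1196 : (2.138 : ℝ) ≤ f 1.196 := by
  have := f1_ge (d := 0.196) (q := 2.138) (by norm_num) (by norm_num) (by unfold P; norm_num)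
  norm_num at this ⊢; exact this
theorem v1280 : (2.09 : ℝ) ≤ f 1.28 := by
  have := f1_ge (d := 0.28) (q := 2.09) (by norm_num) (by norm_num) (by unfold P; norm_num)
  norm_num at this ⊢; exact this

theorem w0653 : (1.0593 : ℝ) ≤ f 2.0653 := by
  have := f2_ge (e := 0.0653) (q := 1.0593) (by norm_num) (by norm_num) (by unfold Q; norm_num)
  norm_num at this ⊢; exact this
theorem w0750 : (1.0729 : ℝ) ≤ f 2.075 := by
  have := f2_ge (e := 0.075) (q := 1.0729) (by norm_num) (by norm_num) (by unfold Q; norm_num)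
  norm_num at this ⊢; exact this
theorem w0878 : (1.0925 : ℝ) ≤ f 2.0878 := by
  have := f2_ge (e := 0.0878) (q := 1.0925) (by norm_num) (by norm_num) (by unfold Q; norm_num)
  norm_num at this ⊢; exact this
theorem w1048 : (1.1221 : ℝ) ≤ f 2.1048 := by
  have := f2_ge (e := 0.1048) (q := 1.1221) (by norm_num) (by norm_num) (by unfold Q; norm_num)
  norm_num at this ⊢; exact this
theorem w1240 : (1.1601 : ℝ) ≤ f 2.124 := by
  have := f2_ge (e := 0.124) (q := 1.1601) (by norm_num) (by norm_num) (by unfold Q; norm_num)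
  norm_num at this ⊢; exact this
theorem w1372 : (1.1891 : ℝ) ≤ f 2.1372 := by
  have := f2_ge (e := 0.1372) (q := 1.1891) (by norm_num) (by norm_num) (by unfold Q; norm_num)
  norm_num at this ⊢; exact this
theorem w1380 : (1.1905 : ℝ) ≤ f 2.138 := by
  have := f2_ge (e := 0.138) (q := 1.1905) (by norm_num) (by norm_num) (by unfold Q; norm_num)
  norm_num at this ⊢; exact this
theorem w1387 : (1.1923 : ℝ) ≤ f 2.1387 := by
  have := f2_ge (e := 0.1387) (q := 1.1923) (by norm_num) (by norm_num) (by unfold Q; norm_num)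
  norm_num at this ⊢; exact this
theorem w0900 : (1.09 : ℝ) ≤ f 2.09 := by
  have := f2_ge (e := 0.09) (q := 1.09) (by norm_num) (by norm_num) (by unfold Q; norm_num)
  norm_num at this ⊢; exact this

/-- `g x > x` on `[1.05, 1.19]` -/
theorem g_gt {x : ℝ} (h1 : 1.05 ≤ x) (h2 : x ≤ 1.19) : x < g x := by
  rcases le_total x 1.059 with h | h
  · have := grid (by norm_num) (by norm_num) h1 h (by linarith) (by norm_num) v1050 (le_trans (by norm_num) v1059) w0653
    linarith
  rcases le_total x 1.072 with h' | h'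
  · have := grid (by norm_num) (by norm_num) h h' (by linarith) (by norm_num) v1059 (le_trans (by norm_num) v1072) w0750
    linarith
  rcases le_total x 1.092 with h'' | h''
  · have := grid (by norm_num) (by norm_num) h' h'' (by linarith) (by norm_num) v1072 (le_trans (by norm_num) v1092) w0878
    linarith
  rcases le_total x 1.122 with h3 | h3
  · have := grid (by norm_num) (by norm_num) h'' h3 (by linarith) (by norm_num) v1092 (le_trans (by norm_num) v1122) w1048
    linarith
  rcases le_total x 1.16 with h4 | h4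
  · have := grid (by norm_num) (by norm_num) h3 h4 (by linarith) (by norm_num) v1122 (le_trans (by norm_num) v1160) w1240
    linarith
  rcases le_total x 1.189 with h5 | h5
  · have := grid (by norm_num) (by norm_num) h4 h5 (by linarith) (by norm_num) v1160 (le_trans (by norm_num) v1189) w1372
    linarith
  · have := grid (by norm_num) (by norm_num) h5 h2 (by linarith) (by norm_num) v1189 v1190 w1387
    linarith

theorem f_le_214 {x : ℝ} (h1 : 1 ≤ x) (h2 : x ≤ 1 + 5 / 18) : f x ≤ 2.14 := by
  have := f1_max (d := x - 1) (by linarith) (by linarith)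
  have e : 1 + (x - 1) = x := by ring
  rwa [e] at this

theorem f_ge_2 {x : ℝ} (h1 : 1 ≤ x) (h2 : x ≤ 1 + 5 / 18) : 2 ≤ f x := by
  have hb : b 1 = 5 / 18 := by unfold b; norm_num
  have := (trap (n := 1) le_rfl (x := x) ⟨by push_cast; linarith, by rw [hb]; push_cast; linarith⟩).1
  have e : T 1 = 2 := by decide
  rw [e] at this; exact_mod_cast this

/-- `g ≤ 1.196` on `[1, 1+5/18]` -/
theorem g_le {x : ℝ} (h1 : 1 ≤ x) (h2 : x ≤ 1 + 5 / 18) : g x ≤ 1.196 := by
  have h3 := f_le_214 h1 h2
  have h4 := f_ge_2 h1 h2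
  refine le_trans (f_mono2' h4 h3 (by norm_num)) ?_
  have := f2_ub (e := 0.14) (by norm_num) (by norm_num)
  have e : (2 : ℝ) + 0.14 = 2.14 := by norm_num
  rw [e] at this
  refine le_trans this ?_
  unfold P; norm_num

theorem g_ge_1 {x : ℝ} (h1 : 1 ≤ x) (h2 : x ≤ 1 + 5 / 18) : 1 ≤ g x := by
  have h3 := f_le_214 h1 h2
  have h4 := f_ge_2 h1 h2
  have := f_mono2' (le_refl (2 : ℝ)) h4 (by linarith)
  refine le_trans ?_ this
  have := f_even 1 0
  simp at this
  linarith

theorem g_K {x : ℝ} (h1 : 1.19 ≤ x) (h2 : x ≤ 1.196) : 1.19 < g x ∧ g x ≤ 1.196 := by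
  refine ⟨?_, g_le (by linarith) (by linarith)⟩
  have := grid (by norm_num) (by norm_num) h1 h2 (by linarith) (by norm_num) (le_trans (by norm_num) v1190) v1196 w1380
  linarith

theorem g_right {x : ℝ} (h1 : 1.196 ≤ x) (h2 : x ≤ 1 + 5 / 18) : 1.05 < g x ∧ g x ≤ 1.196 := by
  refine ⟨?_, g_le (by linarith) (by linarith)⟩
  have := grid (c := 1.28) (by norm_num) (by norm_num) h1 (by linarith) h2 (by norm_num) (le_trans (by norm_num) v1196) v1280 w0900
  linarith

/-- on the right part everything stays on the right -/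
theorem g_R {x : ℝ} (h1 : 1.05 < x) (h2 : x ≤ 1 + 5 / 18) : 1.05 < g x ∧ g x ≤ 1.196 := by
  refine ⟨?_, g_le (by linarith) h2⟩
  rcases le_total x 1.19 with h | h
  · have := g_gt h1.le h; linarith
  rcases le_total x 1.196 with h' | h'
  · have := (g_K h h').1; linarith
  · exact (g_right h' h2).1

/-! ### derivative bounds -/

theorem df1_eq (d : ℝ) : df (1 + d) = 1 + Real.cos (Real.pi * d) / 2
    - Real.pi * (2 * d + 3) / 4 * Real.sin (Real.pi * d) := by
  have := df_odd 0 d
  push_cast at this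
  norm_num at this
  rw [this]

theorem df2_eq (e : ℝ) : df (2 + e) = 1 - Real.cos (Real.pi * e) / 2
    + Real.pi * (2 * e + 5) / 4 * Real.sin (Real.pi * e) := by
  have := df_even 1 e
  push_cast at this
  norm_num at this
  rw [this]; ring

theorem df1_lb {d : ℝ} (h0 : 0 ≤ d) :
    1 + (1 - 9.86961 * d ^ 2 / 2) / 2 - 9.86961 * (2 * d + 3) / 4 * d ≤ df (1 + d) := by
  rw [df1_eq]
  have h2 := cos_lb2 (Real.pi * d)
  have h3 := sin_ub1 (mul_nonneg Real.pi_pos.le h0)
  have h4 := pid_sq_le d
  have h5 : Real.pi * (2 * d + 3) / 4 * Real.sin (Real.pi * d)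
      ≤ Real.pi * (2 * d + 3) / 4 * (Real.pi * d) := by
    apply mul_le_mul_of_nonneg_left h3
    have := Real.pi_pos
    positivity
  have h6 : Real.pi * (2 * d + 3) / 4 * (Real.pi * d) = Real.pi ^ 2 * ((2 * d + 3) / 4 * d) := by ring
  have h7 : Real.pi ^ 2 * ((2 * d + 3) / 4 * d) ≤ 9.86961 * ((2 * d + 3) / 4 * d) := by
    apply mul_le_mul_of_nonneg_right _ (by positivity)
    nlinarith [Real.pi_lt_d6, Real.pi_pos]
  linarith

theorem df2_lb {e e0 : ℝ} (h0 : 0 ≤ e0) (he : e0 ≤ e) (h1 : e ≤ 0.3) :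
    1 / 2 + 9.8696 * 5 / 4 * (e0 * (1 - 9.86961 * e0 ^ 2 / 6)) ≤ df (2 + e) := by
  rw [df2_eq]
  have hp := Real.pi_pos
  have hc : Real.cos (Real.pi * e) ≤ 1 := Real.cos_le_one _
  have hs1 : Real.sin (Real.pi * e0) ≤ Real.sin (Real.pi * e) := by
    apply Real.sin_le_sin_of_le_of_le_pi_div_two
    · nlinarith
    · nlinarith
    · exact mul_le_mul_of_nonneg_left he hp.le
  have hs2 := sin_lb3 (mul_nonneg hp.le h0)
  have h4 := pid_sq_le e0
  have hs3 : Real.pi * (e0 * (1 - 9.86961 * e0 ^ 2 / 6)) ≤ Real.sin (Real.pi * e0) := by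
    have e3 : Real.pi * e0 - (Real.pi * e0) ^ 3 / 6 = Real.pi * e0 * (1 - (Real.pi * e0) ^ 2 / 6) := by ring
    have e4 : Real.pi * e0 * (1 - 9.86961 * e0 ^ 2 / 6) ≤ Real.pi * e0 * (1 - (Real.pi * e0) ^ 2 / 6) := by
      apply mul_le_mul_of_nonneg_left _ (mul_nonneg hp.le h0)
      linarith
    have e5 : Real.pi * (e0 * (1 - 9.86961 * e0 ^ 2 / 6)) = Real.pi * e0 * (1 - 9.86961 * e0 ^ 2 / 6) := by ring
    rw [e5]; linarith
  have hnn : 0 ≤ e0 * (1 - 9.86961 * e0 ^ 2 / 6) := by
    apply mul_nonneg h0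
    nlinarith
  have h5 : Real.pi * 5 / 4 * (Real.pi * (e0 * (1 - 9.86961 * e0 ^ 2 / 6)))
      ≤ Real.pi * (2 * e + 5) / 4 * Real.sin (Real.pi * e) := by
    apply mul_le_mul _ (le_trans hs3 hs1) (mul_nonneg hp.le hnn)
    · have : 0 ≤ Real.pi * (2 * e + 5) := mul_nonneg hp.le (by linarith)
      linarith
    · have : Real.pi * 5 ≤ Real.pi * (2 * e + 5) := mul_le_mul_of_nonneg_left (by linarith) hp.le
      linarith
  have h6 : Real.pi * 5 / 4 * (Real.pi * (e0 * (1 - 9.86961 * e0 ^ 2 / 6)))
      = Real.pi ^ 2 * (5 / 4 * (e0 * (1 - 9.86961 * e0 ^ 2 / 6))) := by ring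
  have h7 : 9.8696 * (5 / 4 * (e0 * (1 - 9.86961 * e0 ^ 2 / 6))) ≤
      Real.pi ^ 2 * (5 / 4 * (e0 * (1 - 9.86961 * e0 ^ 2 / 6))) := by
    apply mul_le_mul_of_nonneg_right _ (by positivity)
    nlinarith [Real.pi_gt_d6, Real.pi_pos]
  linarith

theorem df_1_19 : df 1.19 ≤ 0 ∧ -0.14 ≤ df 1.196 := by
  constructor
  · have e : (1.19 : ℝ) = 1 + 0.19 := by norm_num
    rw [e, df1_eq]
    have hc := cos_le_Q (d := 0.19) (by norm_num) (by norm_num)
    have hs := sin_lb3 (t := Real.pi * 0.19) (by positivity)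
    have hp1 := Real.pi_gt_d6
    have hp2 := Real.pi_lt_d6
    have hs' : (0.56 : ℝ) ≤ Real.sin (Real.pi * 0.19) := by
      refine le_trans ?_ hs
      have h1 : (Real.pi * 0.19) ^ 3 ≤ (0.59690267) ^ 3 := by
        apply pow_le_pow_left₀ (by positivity); linarith
      norm_num at h1 ⊢
      linarith
    have hc' : Real.cos (Real.pi * 0.19) ≤ 0.83 := by
      refine le_trans hc ?_
      unfold Q; norm_num
    have h2 : (2.65 : ℝ) * 0.56 ≤ Real.pi * (2 * 0.19 + 3) / 4 * Real.sin (Real.pi * 0.19) := by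
      apply mul_le_mul _ hs' (by norm_num) (by positivity)
      linarith
    linarith
  · have e : (1.196 : ℝ) = 1 + 0.196 := by norm_num
    rw [e, df1_eq]
    have hc := cos_ge_P (d := 0.196) (by norm_num) (by norm_num)
    have hs := sin_ub5 (t := Real.pi * 0.196) (by positivity)
    have hp1 := Real.pi_gt_d6
    have hp2 := Real.pi_lt_d6
    have hs' : Real.sin (Real.pi * 0.196) ≤ 0.578 := by
      refine le_trans hs ?_
      have h1 : (0.615752) ^ 3 ≤ (Real.pi * 0.196) ^ 3 := by
        apply pow_le_pow_left₀ (by norm_num); linarith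
      have h2 : (Real.pi * 0.196) ^ 5 ≤ (0.615753) ^ 5 := by
        apply pow_le_pow_left₀ (by positivity); linarith
      norm_num at h1 h2 ⊢
      linarith
    have hs0 : 0 ≤ Real.sin (Real.pi * 0.196) :=
      Real.sin_nonneg_of_nonneg_of_le_pi (by positivity) (by linarith)
    have hc' : 0.816 ≤ Real.cos (Real.pi * 0.196) := by
      refine le_trans ?_ hc
      unfold P; norm_num
    have h2 : Real.pi * (2 * 0.196 + 3) / 4 * Real.sin (Real.pi * 0.196) ≤ 2.6642 * 0.578 := by
      apply mul_le_mul _ hs' hs0 (by norm_num)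
      linarith
    linarith

theorem df_K {x : ℝ} (h1 : 1.19 ≤ x) (h2 : x ≤ 1.196) : |df x| ≤ 0.14 := by
  have ha : df x ≤ 0 := by
    rcases h1.lt_or_eq with h | h
    · exact le_trans (df_anti1 (by norm_num) h (by linarith)).le df_1_19.1
    · rw [← h]; exact df_1_19.1
  have hb : -0.14 ≤ df x := by
    rcases h2.lt_or_eq with h | h
    · exact le_trans df_1_19.2 (df_anti1 (by linarith) h (by norm_num)).le
    · rw [h]; exact df_1_19.2
  rw [abs_le]; constructor <;> linarith

theorem df_2K {z : ℝ} (h1 : 2 ≤ z) (h2 : z ≤ 2.14) : |df z| ≤ 3 := by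
  obtain ⟨e, rfl⟩ : ∃ e, z = 2 + e := ⟨z - 2, by ring⟩
  have he0 : 0 ≤ e := by linarith
  have he1 : e ≤ 0.14 := by linarith
  rw [df2_eq]
  have hp := Real.pi_pos
  have hp2 := Real.pi_lt_d6
  have hs := sin_ub1 (mul_nonneg hp.le he0)
  have hs0 : 0 ≤ Real.sin (Real.pi * e) :=
    Real.sin_nonneg_of_nonneg_of_le_pi (by positivity) (by nlinarith)
  have hc1 := Real.cos_le_one (Real.pi * e)
  have hc2 := Real.neg_one_le_cos (Real.pi * e)
  have hc3 : 0 ≤ Real.cos (Real.pi * e) := by
    apply Real.cos_nonneg_of_neg_pi_div_two_le_of_le <;> nlinarith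
  have h3 : Real.pi * (2 * e + 5) / 4 * Real.sin (Real.pi * e) ≤ 4.2 * 0.44 := by
    apply mul_le_mul _ _ hs0 (by norm_num)
    · nlinarith
    · nlinarith
  have h4 : 0 ≤ Real.pi * (2 * e + 5) / 4 * Real.sin (Real.pi * e) := by positivity
  rw [abs_le]; constructor <;> linarith

theorem hasDerivAt_g (x : ℝ) : HasDerivAt g (df (f x) * df x) x :=
  (hasDerivAt_f (f x)).comp x (hasDerivAt_f x)

theorem g_contr {x y : ℝ} (hx : x ∈ Set.Icc (1.19 : ℝ) 1.196) (hy : y ∈ Set.Icc (1.19 : ℝ) 1.196) :
    |g x - g y| ≤ 1 / 2 * |x - y| := by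
  have key := (convex_Icc (1.19 : ℝ) 1.196).norm_image_sub_le_of_norm_hasDerivWithin_le
    (f := g) (f' := fun x => df (f x) * df x) (C := 1 / 2)
    (fun x _ => (hasDerivAt_g x).hasDerivWithinAt) (fun z hz => by
      rw [Real.norm_eq_abs, abs_mul]
      have h1 := df_K hz.1 hz.2
      have h2 := df_2K (f_ge_2 (x := z) (by linarith [hz.1]) (by linarith [hz.2]))
        (f_le_214 (x := z) (by linarith [hz.1]) (by linarith [hz.2]))
      nlinarith [abs_nonneg (df z), abs_nonneg (df (f z))]) hy hx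
  simpa [Real.norm_eq_abs] using key

/-- existence of the point `a₂ ≈ 1.1925` -/
theorem exists_a2 : ∃ a : ℝ, a ∈ Set.Icc (1.19 : ℝ) 1.196 ∧ g a = a := by
  have hcont : ContinuousOn (fun x => g x - x) (Set.Icc (1.19 : ℝ) 1.196) := by
    apply Continuous.continuousOn
    unfold g
    exact (continuous_f.comp continuous_f).sub continuous_id
  have h := intermediate_value_Icc' (by norm_num : (1.19 : ℝ) ≤ 1.196) hcont
  have h0 : (0 : ℝ) ∈ Set.Icc (g 1.196 - 1.196) (g 1.19 - 1.19) := by
    constructor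
    · have := (g_K (x := 1.196) (by norm_num) le_rfl).2
      linarith
    · have := (g_K (x := 1.19) le_rfl (by norm_num)).1
      linarith
  obtain ⟨a, ha, hga⟩ := h h0
  exact ⟨a, ha, by simp only at hga; linarith⟩

theorem a2_unique {a a' : ℝ} (ha : a ∈ Set.Icc (1.19 : ℝ) 1.196) (hga : g a = a)
    (ha' : a' ∈ Set.Icc (1.19 : ℝ) 1.2) (hga' : g a' = a') : a' = a := by
  have h1 : a' ∈ Set.Icc (1.19 : ℝ) 1.196 := by
    refine ⟨ha'.1, ?_⟩
    have := g_le (x := a') (by linarith [ha'.1]) (by linarith [ha'.2])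
    rw [hga'] at this; exact this
  have h2 := g_contr h1 ha
  rw [hga, hga'] at h2
  have : |a' - a| ≤ 0 := by linarith [abs_nonneg (a' - a)]
  have := abs_nonpos_iff.1 this
  linarith


/-! ### the left part `[1, 1.05]` -/

theorem df_pos_left {x : ℝ} (h1 : 1 ≤ x) (h2 : x ≤ 1.05) : 1.11 ≤ df x := by
  have h3 : 1.11 ≤ df 1.05 := by
    have := df1_lb (d := 0.05) (by norm_num)
    have e : (1 : ℝ) + 0.05 = 1.05 := by norm_num
    rw [e] at this
    refine le_trans ?_ this
    norm_num
  rcases h2.lt_or_eq with h | h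
  · exact le_trans h3 (df_anti1 h1 h (by norm_num)).le
  · rw [h]; exact h3

theorem f_mono_left {x y : ℝ} (hx : 1 ≤ x) (h : x < y) (hy : y ≤ 1.05) : f x < f y := by
  have key : StrictMonoOn f (Set.Icc 1 1.05) := by
    apply strictMonoOn_of_deriv_pos (convex_Icc _ _) continuous_f.continuousOn
    intro s hs
    rw [interior_Icc] at hs
    rw [deriv_f]
    have := df_pos_left hs.1.le hs.2.le
    linarith
  exact key ⟨hx, by linarith⟩ ⟨by linarith, hy⟩ h

theorem g_mono_left {x y : ℝ} (hx : 1 ≤ x) (h : x < y) (hy : y ≤ 1.05) : g x < g y := by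
  have h1 := f_mono_left hx h hy
  have h2 := f_ge_2 (x := x) hx (by linarith)
  have h3 := f_le_214 (x := y) (by linarith) (by linarith)
  exact f_mono2 h2 h1 (by linarith)

/-- `g x < x` on `(1, 1.02]` -/
theorem g_lt {x : ℝ} (h1 : 1 < x) (h2 : x ≤ 1.02) : g x < x := by
  obtain ⟨d, rfl⟩ : ∃ d, x = 1 + d := ⟨x - 1, by ring⟩
  have hd0 : 0 < d := by linarith
  have hd1 : d ≤ 0.02 := by linarith
  have h3 := f1_ub hd0.le (by linarith : d ≤ 0.3)
  have h4 : f (1 + d) ≤ 2 + (1.5 * d - 3.7 * d ^ 2) := by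
    refine le_trans h3 ?_
    unfold Q
    nlinarith [mul_pos hd0 hd0, mul_pos hd0 (mul_pos hd0 hd0), mul_pos (mul_pos hd0 hd0) (mul_pos hd0 hd0)]
  obtain ⟨e, he⟩ : ∃ e, e = 1.5 * d - 3.7 * d ^ 2 := ⟨_, rfl⟩
  rw [← he] at h4
  have he0 : 0 ≤ e := by rw [he]; nlinarith
  have he1 : e ≤ 1.5 * d := by rw [he]; nlinarith
  have h5 := f_ge_2 (x := 1 + d) h1.le (by linarith)
  have h6 : g (1 + d) ≤ f (2 + e) := f_mono2' h5 h4 (by linarith)
  have h7 := f2_ub he0 (by linarith : e ≤ 0.3)
  have h8 : f (2 + e) ≤ 1 + (e / 2 + 6.17 * e ^ 2 + 2.5 * e ^ 3) := by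
    refine le_trans h7 ?_
    have hP : 1 - 9.86961 * e ^ 2 / 2 ≤ P (9.86961 * e ^ 2) := by
      unfold P
      have hu : 0 ≤ 9.86961 * e ^ 2 := by positivity
      have hu1 : 9.86961 * e ^ 2 ≤ 1 := by nlinarith
      nlinarith [mul_nonneg hu hu, mul_nonneg (mul_nonneg hu hu) hu, mul_nonneg (mul_nonneg hu hu) (sub_nonneg.2 hu1)]
    nlinarith
  have h9 : e / 2 + 6.17 * e ^ 2 + 2.5 * e ^ 3 < d := by
    have e2 : e ^ 2 ≤ e * (1.5 * d) := by nlinarith
    have e3 : e ^ 3 ≤ (1.5 * d) ^ 3 := by gcongr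
    have e4 : e * (1.5 * d) = 2.25 * d ^ 2 - 5.55 * d ^ 3 := by rw [he]; ring
    have e5 : e ^ 2 = 2.25 * d ^ 2 - 11.1 * d ^ 3 + 13.69 * d ^ 4 := by rw [he]; ring
    have hd2 : 0 < d ^ 2 := by positivity
    rw [e5]
    have e6 : d ^ 4 ≤ 0.02 * d ^ 3 := by nlinarith [pow_pos hd0 3]
    have e7 : e ^ 3 ≤ 3.375 * d ^ 3 := by nlinarith
    have e8 : d ^ 2 ≤ 0.02 * d := by nlinarith
    have e9 : 0 < d ^ 3 := by positivity
    nlinarith
  linarith

theorem mult_ge {x : ℝ} (h1 : 1.02 ≤ x) (h2 : x ≤ 1.05) : 1 ≤ df x * df (f x) := by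
  obtain ⟨d, rfl⟩ : ∃ d, x = 1 + d := ⟨x - 1, by ring⟩
  have hd0 : 0.02 ≤ d := by linarith
  have hd1 : d ≤ 0.05 := by linarith
  have hup := f_le_214 (x := 1 + d) (by linarith) (by linarith)
  rcases le_total d 0.03 with h | h
  · -- [1.02, 1.03]
    have hA : (1.27 : ℝ) ≤ df (1 + d) := by
      have := df1_lb (d := d) (by linarith)
      refine le_trans ?_ this
      nlinarith
    have hB : 2.0284 ≤ f (1 + d) := by
      have hh : (2.0284 : ℝ) ≤ f 1.02 := by
        have := f1_ge (d := 0.02) (q := 2.0284) (by norm_num) (by norm_num) (by unfold P; norm_num)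
        norm_num at this ⊢; exact this
      rcases hd0.lt_or_eq with h' | h'
      · refine le_trans hh (f_mono_left (by norm_num) (by linarith) (by linarith)).le
      · rw [← h']; norm_num at hh ⊢; exact hh
    have hC : (0.84 : ℝ) ≤ df (f (1 + d)) := by
      have := df2_lb (e0 := 0.0284) (e := f (1 + d) - 2) (by norm_num) (by linarith) (by linarith)
      have e : 2 + (f (1 + d) - 2) = f (1 + d) := by ring
      rw [e] at this
      refine le_trans ?_ this
      norm_num
    nlinarith
  · have hA : (1.11 : ℝ) ≤ df (1 + d) := df_pos_left (by linarith) (by linarith)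
    have hB : 2.0415 ≤ f (1 + d) := by
      have hh : (2.0415 : ℝ) ≤ f 1.03 := by
        have := f1_ge (d := 0.03) (q := 2.0415) (by norm_num) (by norm_num) (by unfold P; norm_num)
        norm_num at this ⊢; exact this
      rcases h.lt_or_eq with h' | h'
      · refine le_trans hh (f_mono_left (by norm_num) (by linarith) (by linarith)).le
      · rw [← h']; norm_num at hh ⊢; exact hh
    have hC : (1.0 : ℝ) ≤ df (f (1 + d)) := by
      have := df2_lb (e0 := 0.0415) (e := f (1 + d) - 2) (by norm_num) (by linarith) (by linarith)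
      have e : 2 + (f (1 + d) - 2) = f (1 + d) := by ring
      rw [e] at this
      refine le_trans ?_ this
      norm_num
    nlinarith

/-! ### periodic points in `[1, 1+5/18]` -/

theorem per_J1 {y : ℝ} (h1 : 1 ≤ y) (h2 : y ≤ 1 + 5 / 18) {N : ℕ} (hN : 0 < N) (hper : g^[N] y = y) :
    g y = y ∧ (y ∈ Set.Icc (1.19 : ℝ) 1.196 ∨ y ≤ 1.05) := by
  have hJ : ∀ i, 1 ≤ g^[i] y ∧ g^[i] y ≤ 1 + 5 / 18 := by
    intro i
    induction i with
    | zero => exact ⟨h1, h2⟩
    | succ i ih =>
      rw [Function.iterate_succ_apply']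
      exact ⟨g_ge_1 ih.1 ih.2, by have := g_le ih.1 ih.2; linarith⟩
  have hmul : ∀ k, g^[N * k] y = y := by
    intro k
    rw [Function.iterate_mul]
    exact Function.iterate_fixed hper k
  by_cases hR : ∃ i, 1.05 < g^[i] y
  · obtain ⟨i, hi⟩ := hR
    have hlater : ∀ j, 1.05 < g^[j + i] y := by
      intro j
      induction j with
      | zero => simpa using hi
      | succ j ih =>
        have : j + 1 + i = (j + i) + 1 := by ring
        rw [this, Function.iterate_succ_apply']
        exact (g_R ih (hJ _).2).1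
    have hy : 1.05 < y := by
      have hle : i ≤ N * i := Nat.le_mul_of_pos_left i hN
      have := hlater (N * i - i)
      rw [Nat.sub_add_cancel hle, hmul] at this
      exact this
    have hall : ∀ j, 1.05 < g^[j] y := by
      intro j
      induction j with
      | zero => simpa using hy
      | succ j ih =>
        rw [Function.iterate_succ_apply']
        exact (g_R ih (hJ _).2).1
    have hle : ∀ j, g^[j] y ≤ 1.196 := by
      intro j
      rcases Nat.eq_zero_or_pos j with h | h
      · subst h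
        have := hper
        obtain ⟨N', rfl⟩ : ∃ N', N = N' + 1 := ⟨N - 1, by omega⟩
        rw [Function.iterate_succ_apply'] at this
        have h3 := g_le (hJ N').1 (hJ N').2
        rw [this] at h3
        simpa using h3
      · obtain ⟨j', rfl⟩ : ∃ j', j = j' + 1 := ⟨j - 1, by omega⟩
        rw [Function.iterate_succ_apply']
        exact g_le (hJ j').1 (hJ j').2
    by_cases hK : ∃ j, 1.19 ≤ g^[j] y
    · obtain ⟨j, hj⟩ := hK
      have hlater2 : ∀ k, 1.19 ≤ g^[k + j] y := by
        intro k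
        induction k with
        | zero => simpa using hj
        | succ k ih =>
          have : k + 1 + j = (k + j) + 1 := by ring
          rw [this, Function.iterate_succ_apply']
          exact (g_K ih (hle _)).1.le
      have hyK : 1.19 ≤ y := by
        have hle' : j ≤ N * j := Nat.le_mul_of_pos_left j hN
        have := hlater2 (N * j - j)
        rw [Nat.sub_add_cancel hle', hmul] at this
        exact this
      have hallK : ∀ k, g^[k] y ∈ Set.Icc (1.19 : ℝ) 1.196 := by
        intro k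
        induction k with
        | zero => exact ⟨by simpa using hyK, hle 0⟩
        | succ k ih =>
          refine ⟨?_, hle _⟩
          rw [Function.iterate_succ_apply']
          exact (g_K ih.1 ih.2).1.le
      have hcontr : ∀ k, |g^[k + 1] y - g^[k] y| ≤ (1 / 2) ^ k * |g y - y| := by
        intro k
        induction k with
        | zero => simp
        | succ k ih =>
          have e1 : g^[k + 1 + 1] y = g (g^[k + 1] y) := Function.iterate_succ_apply' _ _ _
          have e2 : g^[k + 1] y = g (g^[k] y) := Function.iterate_succ_apply' _ _ _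
          have h3 := g_contr (hallK (k + 1)) (hallK k)
          rw [← e1, ← e2] at h3
          calc |g^[k + 1 + 1] y - g^[k + 1] y| ≤ 1 / 2 * |g^[k + 1] y - g^[k] y| := h3
            _ ≤ 1 / 2 * ((1 / 2) ^ k * |g y - y|) := by gcongr
            _ = (1 / 2) ^ (k + 1) * |g y - y| := by ring
      have h3 := hcontr N
      rw [Function.iterate_succ_apply', hper] at h3
      have h4 : ((1 : ℝ) / 2) ^ N ≤ 1 / 2 := by
        calc ((1 : ℝ) / 2) ^ N ≤ (1 / 2) ^ 1 := pow_le_pow_of_le_one (by norm_num) (by norm_num) hN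
          _ = 1 / 2 := by norm_num
      have h5 : |g y - y| ≤ 1 / 2 * |g y - y| :=
        le_trans h3 (mul_le_mul_of_nonneg_right h4 (abs_nonneg _))
      have h6 : |g y - y| ≤ 0 := by linarith
      have h7 := abs_nonpos_iff.1 h6
      exact ⟨by linarith, Or.inl ⟨hyK, hle 0⟩⟩
    · exfalso
      simp only [not_exists, not_le] at hK
      have hinc : ∀ k, y < g^[k + 1] y := by
        intro k
        induction k with
        | zero =>
          simp only [zero_add, Function.iterate_one]
          exact g_gt hy.le (by have := hK 0; simp at this; linarith)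
        | succ k ih =>
          rw [Function.iterate_succ_apply']
          have := g_gt (x := g^[k + 1] y) (hall _).le (hK _).le
          linarith
      obtain ⟨N', rfl⟩ : ∃ N', N = N' + 1 := ⟨N - 1, by omega⟩
      have := hinc N'
      rw [hper] at this
      exact lt_irrefl _ this
  · simp only [not_exists, not_lt] at hR
    refine ⟨?_, Or.inr (by simpa using hR 0)⟩
    have hstep : ∀ k, g^[k + 1] y = g (g^[k] y) := fun k => Function.iterate_succ_apply' _ _ _
    obtain ⟨N', rfl⟩ : ∃ N', N = N' + 1 := ⟨N - 1, by omega⟩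
    rcases lt_trichotomy (g y) y with h | h | h
    · exfalso
      have hdec : ∀ k, g^[k + 1] y < y := by
        intro k
        induction k with
        | zero => simpa using h
        | succ k ih =>
          rw [hstep (k + 1)]
          exact lt_trans (g_mono_left (hJ _).1 ih (by simpa using hR 0)) h
      have := hdec N'
      rw [hper] at this
      exact lt_irrefl _ this
    · exact h
    · exfalso
      have hinc : ∀ k, y < g^[k + 1] y := by
        intro k
        induction k with
        | zero => simpa using h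
        | succ k ih =>
          rw [hstep (k + 1)]
          exact lt_trans h (g_mono_left h1 ih (hR _))
      have := hinc N'
      rw [hper] at this
      exact lt_irrefl _ this

theorem T_iter_one (k : ℕ) : T^[2 * k] 1 = 1 := by
  rw [Function.iterate_mul]
  exact Function.iterate_fixed (by decide) k

theorem b1 : b 1 = 5 / 18 := by unfold b; norm_num
theorem b2 : b 2 = 1 / 6 := by unfold b; norm_num

/-- classification in `J₁` -/
theorem cls_J1 {a : ℝ} (ha : a ∈ Set.Icc (1.19 : ℝ) 1.196) (hga : g a = a)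
    {y : ℝ} (h1 : 1 ≤ y) (h2 : y ≤ 1 + 5 / 18) (hp : 0 < Function.minimalPeriod f y)
    (hm : |deriv (f^[Function.minimalPeriod f y]) y| < 1) : y = 1 ∨ y = a := by
  obtain ⟨p, hpd⟩ : ∃ p, p = Function.minimalPeriod f y := ⟨_, rfl⟩
  rw [← hpd] at hp hm
  have hper : f^[p] y = y := by rw [hpd]; exact Function.iterate_minimalPeriod
  have hyJ : y ∈ Set.Icc ((1 : ℕ) : ℝ) ((1 : ℕ) + b 1) := ⟨by push_cast; exact h1, by rw [b1]; push_cast; exact h2⟩
  have heven : p % 2 = 0 := by
    by_contra hodd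
    obtain ⟨k, rfl⟩ : ∃ k, p = 2 * k + 1 := ⟨p / 2, by omega⟩
    have h3 := (shadow (n := 1) le_rfl hyJ (2 * k + 1)).1
    rw [hper, Function.iterate_succ_apply', T_iter_one] at h3
    have : T 1 = 2 := by decide
    rw [this] at h3
    push_cast at h3
    linarith
  obtain ⟨N, rfl⟩ : ∃ N, p = 2 * N := ⟨p / 2, by omega⟩
  have hN : 0 < N := by omega
  have hg : g^[N] y = y := by
    rw [Function.iterate_mul] at hper
    exact hper
  obtain ⟨hgy, hcase⟩ := per_J1 h1 h2 hN hg
  have h2per : Function.minimalPeriod f y ∣ 2 := by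
    apply Function.IsPeriodicPt.minimalPeriod_dvd
    exact hgy
  have hN1 : N = 1 := by
    rw [← hpd] at h2per
    have := Nat.le_of_dvd (by norm_num) h2per
    omega
  subst hN1
  rw [deriv_iter] at hm
  simp only [mul_one, Finset.prod_range_succ, Finset.prod_range_zero, one_mul, Function.iterate_zero,
    id_eq, Function.iterate_one] at hm
  rcases hcase with hK | hL
  · right
    exact a2_unique ha hga ⟨hK.1, by linarith [hK.2]⟩ hgy
  · left
    by_contra hne
    have hgt : 1 < y := lt_of_le_of_ne h1 (Ne.symm hne)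
    rcases le_total y 1.02 with h | h
    · have := g_lt hgt h
      linarith
    · have h5 := mult_ge h hL
      rw [abs_of_nonneg (by linarith)] at hm
      linarith

/-- classification in `J₁ ∪ J₂` -/
theorem cls_J2 {a : ℝ} (ha : a ∈ Set.Icc (1.19 : ℝ) 1.196) (hga : g a = a)
    {y : ℝ} (h1 : 2 ≤ y) (h2 : y ≤ 2 + 1 / 6) (hp : 0 < Function.minimalPeriod f y)
    (hm : |deriv (f^[Function.minimalPeriod f y]) y| < 1) : y = 2 ∨ y = f a := by
  have hyJ : y ∈ Set.Icc ((2 : ℕ) : ℝ) ((2 : ℕ) + b 2) := ⟨by push_cast; exact h1, by rw [b2]; push_cast; exact h2⟩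
  have hper : f^[Function.minimalPeriod f y] y = y := Function.iterate_minimalPeriod
  have hmem : y ∈ Function.periodicPts f := Function.minimalPeriod_pos_iff_mem_periodicPts.1 hp
  have hmin : Function.minimalPeriod f (f y) = Function.minimalPeriod f y :=
    Function.minimalPeriod_apply hmem
  have h3 := trap (n := 2) (by norm_num) hyJ
  have hT : T 2 = 1 := by decide
  rw [hT, b1] at h3
  have h4 := cls_J1 ha hga (y := f y) (by have := h3.1; push_cast at this; exact this)
    (by have := h3.2; push_cast at this; exact this) (by rw [hmin]; exact hp)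
    (by rw [hmin, deriv_iter_shift hper]; exact hm)
  obtain ⟨p, hpd⟩ : ∃ p, Function.minimalPeriod f y = p + 1 := ⟨Function.minimalPeriod f y - 1, by omega⟩
  have hy : y = f^[p] (f y) := by
    rw [hpd, Function.iterate_succ_apply] at hper
    exact hper.symm
  have f1 : f 1 = 2 := by
    have := f_odd 0 0
    simp at this
    linarith
  have f2 : f 2 = 1 := by
    have := f_even 1 0
    simp at this
    linarith
  rcases h4 with h5 | h5
  · left
    -- orbit of 1 is {1,2}
    have horb : ∀ k, f^[k] (1 : ℝ) = 1 ∨ f^[k] (1 : ℝ) = 2 := by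
      intro k
      induction k with
      | zero => left; rfl
      | succ k ih =>
        rw [Function.iterate_succ_apply']
        rcases ih with ih | ih <;> rw [ih]
        · right; exact f1
        · left; exact f2
    rw [h5] at hy
    rcases horb p with h6 | h6
    · rw [h6] at hy; linarith
    · rw [h6] at hy; exact hy
  · right
    have horb : ∀ k, f^[k] a = a ∨ f^[k] a = f a := by
      intro k
      induction k with
      | zero => left; rfl
      | succ k ih =>
        rw [Function.iterate_succ_apply']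
        rcases ih with ih | ih <;> rw [ih]
        · right; rfl
        · left; exact hga
    rw [h5] at hy
    rcases horb p with h6 | h6
    · rw [h6] at hy; linarith [ha.2]
    · rw [h6] at hy; exact hy

end Pool.Agent.H934R2.Ch
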