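import Pool.Agent.H934R2.Ch.Fin1

/-!
Every orbit of `f` entering `[1, 1+5/18]` converges to one of the two known attracting cycles or
lands on the repelling 2-cycle between them.
-/

set_option autoImplicit false

namespace Pool.Agent.H934R2.Ch

open Real Filter Topology

theorem continuous_g : Continuous g := continuous_f.comp continuous_f

theorem J_iter {x : ℝ} (h1 : 1 ≤ x) (h2 : x ≤ 1 + 5 / 18) (i : ℕ) :
    1 ≤ g^[i] x ∧ g^[i] x ≤ 1 + 5 / 18 := by
  induction i with
  | zero => exact ⟨h1, h2⟩
  | succ i ih =>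
    rw [Function.iterate_succ_apply']
    exact ⟨g_ge_1 ih.1 ih.2, by have := g_le ih.1 ih.2; linarith⟩

theorem tendsto_shift {u : ℕ → ℝ} {L : ℝ} (i : ℕ) (h : Tendsto (fun k => u (k + i)) atTop (𝓝 L)) :
    Tendsto u atTop (𝓝 L) := (tendsto_add_atTop_iff_nat i).1 h

theorem limit_fixed {x L : ℝ} (h : Tendsto (fun k => g^[k] x) atTop (𝓝 L)) : g L = L := by
  have h1 : Tendsto (fun k => g (g^[k] x)) atTop (𝓝 (g L)) := (continuous_g.tendsto L).comp h
  have h2 : Tendsto (fun k => g^[k + 1] x) atTop (𝓝 L) := (tendsto_add_atTop_iff_nat 1).2 h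
  have h3 : (fun k => g^[k + 1] x) = fun k => g (g^[k] x) := by
    funext k; exact Function.iterate_succ_apply' _ _ _
  rw [h3] at h2
  exact tendsto_nhds_unique h1 h2

/-- convergence in `K = [1.19, 1.196]` -/
theorem conv_K {a : ℝ} (ha : a ∈ Set.Icc (1.19 : ℝ) 1.196) (hga : g a = a) {z : ℝ}
    (hz : z ∈ Set.Icc (1.19 : ℝ) 1.196) : Tendsto (fun k => g^[k] z) atTop (𝓝 a) := by
  have hall : ∀ k, g^[k] z ∈ Set.Icc (1.19 : ℝ) 1.196 := by
    intro k
    induction k with
    | zero => exact hz
    | succ k ih =>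
      rw [Function.iterate_succ_apply']
      have := g_K ih.1 ih.2
      exact ⟨this.1.le, this.2⟩
  have hcontr : ∀ k, |g^[k] z - a| ≤ (1 / 2) ^ k * |z - a| := by
    intro k
    induction k with
    | zero => simp
    | succ k ih =>
      rw [Function.iterate_succ_apply']
      have h3 := g_contr (hall k) ha
      rw [hga] at h3
      calc |g (g^[k] z) - a| ≤ 1 / 2 * |g^[k] z - a| := h3
        _ ≤ 1 / 2 * ((1 / 2) ^ k * |z - a|) := by gcongr
        _ = (1 / 2) ^ (k + 1) * |z - a| := by ring
  rw [tendsto_iff_norm_sub_tendsto_zero]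
  have h0 : Tendsto (fun k : ℕ => ((1 : ℝ) / 2) ^ k * |z - a|) atTop (𝓝 0) := by
    have := (tendsto_pow_atTop_nhds_zero_of_lt_one (by norm_num : (0 : ℝ) ≤ 1 / 2) (by norm_num)).mul_const |z - a|
    simpa using this
  exact squeeze_zero (fun k => norm_nonneg _) (fun k => by simpa [Real.norm_eq_abs] using hcontr k) h0

/-- convergence from `(1.05, 1.196]` -/
theorem conv_R {a : ℝ} (ha : a ∈ Set.Icc (1.19 : ℝ) 1.196) (hga : g a = a) {z : ℝ}
    (h1 : 1.05 < z) (h2 : z ≤ 1.196) : Tendsto (fun k => g^[k] z) atTop (𝓝 a) := by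
  have hall : ∀ k, 1.05 < g^[k] z ∧ g^[k] z ≤ 1.196 := by
    intro k
    induction k with
    | zero => exact ⟨h1, h2⟩
    | succ k ih =>
      rw [Function.iterate_succ_apply']
      exact g_R ih.1 (by linarith [ih.2])
  by_cases hK : ∃ j, 1.19 ≤ g^[j] z
  · obtain ⟨j, hj⟩ := hK
    have h3 := conv_K ha hga (z := g^[j] z) ⟨hj, (hall j).2⟩
    apply tendsto_shift j
    simpa [Function.iterate_add_apply] using h3
  · exfalso
    simp only [not_exists, not_le] at hK
    have hmono : Monotone (fun k => g^[k] z) := by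
      apply monotone_nat_of_le_succ
      intro k
      rw [Function.iterate_succ_apply']
      exact (g_gt (hall k).1.le (hK k).le).le
    have hbdd : BddAbove (Set.range fun k => g^[k] z) :=
      ⟨1.196, by rintro _ ⟨k, rfl⟩; exact (hall k).2⟩
    have hlim := tendsto_atTop_ciSup hmono hbdd
    have hfix := limit_fixed hlim
    have hL1 : 1.05 ≤ ⨆ k, g^[k] z := le_trans (hall 0).1.le (le_ciSup hbdd 0)
    have hL2 : (⨆ k, g^[k] z) ≤ 1.19 := ciSup_le fun k => (hK k).le
    have := g_gt hL1 hL2
    linarith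

/-- the orbit of a point of `[1, 1 + 5/18]` under `g = f ∘ f` -/
theorem conv_J1 {a : ℝ} (ha : a ∈ Set.Icc (1.19 : ℝ) 1.196) (hga : g a = a) {x : ℝ}
    (h1 : 1 ≤ x) (h2 : x ≤ 1 + 5 / 18) :
    Tendsto (fun k => g^[k] x) atTop (𝓝 1) ∨ Tendsto (fun k => g^[k] x) atTop (𝓝 a) ∨
      ∃ K, g^[K] x ∈ Set.Icc (1.02 : ℝ) 1.05 ∧ g (g^[K] x) = g^[K] x := by
  have hJ := J_iter h1 h2
  by_cases hR : ∃ i, 1.05 < g^[i] x
  · right; left
    obtain ⟨i, hi⟩ := hR
    have h3 := g_R hi (hJ i).2
    have h4 := conv_R ha hga h3.1 h3.2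
    apply tendsto_shift (i + 1)
    have h5 : (fun k => g^[k + (i + 1)] x) = fun k => g^[k] (g (g^[i] x)) := by
      funext k
      rw [Function.iterate_add_apply, Function.iterate_succ_apply']
    rw [h5]; exact h4
  · simp only [not_exists, not_lt] at hR
    have hmonoall : ∀ i j, g^[i] x ≤ g^[j] x → g^[i + 1] x ≤ g^[j + 1] x := by
      intro i j hij
      rw [Function.iterate_succ_apply', Function.iterate_succ_apply']
      rcases hij.lt_or_eq with h | h
      · exact (g_mono_left (hJ i).1 h (hR j)).le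
      · rw [h]
    have hex : ∃ L, Tendsto (fun k => g^[k] x) atTop (𝓝 L) := by
      rcases le_total x (g x) with h | h
      · have hm : Monotone (fun k => g^[k] x) := by
          apply monotone_nat_of_le_succ
          intro k
          induction k with
          | zero => simpa using h
          | succ k ih => exact hmonoall _ _ ih
        exact ⟨_, tendsto_atTop_ciSup hm ⟨1 + 5 / 18, by rintro _ ⟨k, rfl⟩; exact (hJ k).2⟩⟩
      · have hm : Antitone (fun k => g^[k] x) := by
          apply antitone_nat_of_succ_le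
          intro k
          induction k with
          | zero => simpa using h
          | succ k ih => exact hmonoall _ _ ih
        exact ⟨_, tendsto_atTop_ciInf hm ⟨1, by rintro _ ⟨k, rfl⟩; exact (hJ k).1⟩⟩
    obtain ⟨L, hL⟩ := hex
    have hfix := limit_fixed hL
    have hL1 : 1 ≤ L := ge_of_tendsto' hL fun k => (hJ k).1
    have hL2 : L ≤ 1.05 := le_of_tendsto' hL fun k => hR k
    rcases hL1.lt_or_eq with hL1' | hL1'
    · right; right
      have hL3 : 1.02 < L := by
        by_contra h
        have := g_lt hL1' (not_lt.1 h)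
        linarith
      -- eventually in (1.02, 1.05]
      have hev : ∀ᶠ k in atTop, 1.02 < g^[k] x := hL.eventually (lt_mem_nhds hL3)
      obtain ⟨K, hK⟩ := eventually_atTop.1 hev
      -- expansion
      have hexp : ∀ z, 1.02 ≤ z → z ≤ 1.05 → |z - L| ≤ |g z - L| := by
        intro z hz1 hz2
        have hmono : MonotoneOn (fun s => g s - s) (Set.Icc (1.02 : ℝ) 1.05) := by
          apply monotoneOn_of_deriv_nonneg (convex_Icc _ _)
          · exact (continuous_g.sub continuous_id).continuousOn
          · intro s _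
            exact ((hasDerivAt_g s).sub (hasDerivAt_id s)).differentiableAt.differentiableWithinAt
          · intro s hs
            rw [interior_Icc] at hs
            have hd : HasDerivAt (fun s => g s - s) (df (f s) * df s - 1) s :=
              (hasDerivAt_g s).sub (hasDerivAt_id s)
            rw [hd.deriv]
            have := mult_ge hs.1.le hs.2.le
            nlinarith
        rcases le_total z L with h | h
        · have h5 := hmono (a := z) (b := L) ⟨hz1, hz2⟩ ⟨hL3.le, hL2⟩ h
          simp only at h5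
          rw [abs_of_nonpos (by linarith), abs_of_nonpos (by linarith)]
          linarith
        · have h5 := hmono (a := L) (b := z) ⟨hL3.le, hL2⟩ ⟨hz1, hz2⟩ h
          simp only at h5
          rw [abs_of_nonneg (by linarith), abs_of_nonneg (by linarith)]
          linarith
      have hnd : ∀ k, |g^[K] x - L| ≤ |g^[K + k] x - L| := by
        intro k
        induction k with
        | zero => simp
        | succ k ih =>
          refine le_trans ih ?_
          have : K + (k + 1) = (K + k) + 1 := by ring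
          rw [this, Function.iterate_succ_apply']
          exact hexp _ (hK _ (by omega)).le (hR _)
      have hlim0 : Tendsto (fun k => |g^[K + k] x - L|) atTop (𝓝 0) := by
        have h6 : Tendsto (fun k => g^[k + K] x) atTop (𝓝 L) := (tendsto_add_atTop_iff_nat K).2 hL
        have h7 : Tendsto (fun k => |g^[k + K] x - L|) atTop (𝓝 |L - L|) := (h6.sub_const L).abs
        simp only [sub_self, abs_zero] at h7
        simpa [add_comm] using h7
      have h8 : |g^[K] x - L| ≤ 0 := ge_of_tendsto' hlim0 hnd
      have h9 : g^[K] x = L := by have := abs_nonpos_iff.1 h8; linarith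
      exact ⟨K, by rw [h9]; exact ⟨hL3.le, hL2⟩, by rw [h9]; exact hfix⟩
    · left; rw [hL1']; exact hL

theorem minPer_two {y : ℝ} (h2 : f (f y) = y) (hne : f y ≠ y) : Function.minimalPeriod f y = 2 := by
  have hper : Function.IsPeriodicPt f 2 y := h2
  have hdvd := hper.minimalPeriod_dvd
  have hpos : 0 < Function.minimalPeriod f y :=
    Function.IsPeriodicPt.minimalPeriod_pos (by norm_num) hper
  have hle := Nat.le_of_dvd (by norm_num) hdvd
  have hne1 : Function.minimalPeriod f y ≠ 1 := by
    intro h1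
    exact hne (Function.minimalPeriod_eq_one_iff_isFixedPt.1 h1)
  omega

theorem minPer_one : Function.minimalPeriod f 1 = 2 :=
  minPer_two (by rw [f_one, f_two]) (by rw [f_one]; norm_num)

theorem minPer_a {a : ℝ} (ha : a ∈ Set.Icc (1.19 : ℝ) 1.196) (hga : g a = a) :
    Function.minimalPeriod f a = 2 :=
  minPer_two hga (by
    have := f_ge_2 (x := a) (by linarith [ha.1]) (by linarith [ha.2])
    intro h; linarith [ha.2])

theorem g_iter (k : ℕ) (x : ℝ) : g^[k] x = f^[2 * k] x := by
  rw [Function.iterate_mul]; rfl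

/-- orbits shadowing a Collatz orbit that reaches `1` -/
theorem conv_reach {a : ℝ} (ha : a ∈ Set.Icc (1.19 : ℝ) 1.196) (hga : g a = a)
    {n : ℕ} (hn : 1 ≤ n) {k : ℕ} (hk : T^[k] n = 1) {x : ℝ}
    (hx : x ∈ Set.Icc (n : ℝ) (n + b n)) :
    Attracts 1 x ∨ Attracts a x ∨
      ∃ K, f^[K] x ∈ Set.Icc (1.02 : ℝ) 1.05 ∧ f^[K + 2] x = f^[K] x := by
  have hs := shadow hn hx k
  rw [hk, b1] at hs
  push_cast at hs
  rcases conv_J1 ha hga hs.1 hs.2 with h | h | ⟨K, h, h'⟩
  · left
    refine ⟨k, ?_⟩
    rw [minPer_one]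
    refine h.congr fun i => ?_
    rw [g_iter, ← Function.iterate_add_apply, mul_comm]
  · right; left
    refine ⟨k, ?_⟩
    rw [minPer_a ha hga]
    refine h.congr fun i => ?_
    rw [g_iter, ← Function.iterate_add_apply, mul_comm]
  · right; right
    refine ⟨2 * K + k, ?_, ?_⟩
    · rw [Function.iterate_add_apply, ← g_iter]; exact h
    · have h3 : f^[2 * K + k] x = g^[K] (f^[k] x) := by
        rw [Function.iterate_add_apply, ← g_iter]
      have h4 : f^[2 * K + k + 2] x = g (g^[K] (f^[k] x)) := by
        have : 2 * K + k + 2 = 2 + (2 * K + k) := by ring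
        rw [this, Function.iterate_add_apply, h3]; rfl
      rw [h4, h3, h']

end Pool.Agent.H934R2.Ch
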