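import Pool.Agent.H934R2.Ch.Basic

/-!
The only cycle of the Collatz map `T` on the positive integers with `max ≤ 3 min` is `{1,2}`.
-/

set_option autoImplicit false

namespace Pool.Agent.H934R2.Ch

theorem T_two_even {n : ℕ} (h : n % 2 = 0) : 2 * T n = n := by
  unfold T; rw [if_pos h]; omega

theorem T_two_odd {n : ℕ} (h : n % 2 = 1) : 2 * T n = 3 * n + 1 := by
  unfold T; rw [if_neg (by omega)]; omega

theorem two_pow_eq {l o : ℕ} (h : 2 ^ l = 3 ^ (o + 1) + 1) : l ≤ 2 := by
  by_contra hl
  obtain ⟨j, rfl⟩ : ∃ j, l = j + 3 := ⟨l - 3, by omega⟩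
  have h1 : 2 ^ (j + 3) % 8 = 0 := by rw [pow_add]; omega
  have h2 : ∀ i : ℕ, 3 ^ i % 8 = 1 ∨ 3 ^ i % 8 = 3 := by
    intro i
    induction i with
    | zero => left; rfl
    | succ i ih => rw [pow_succ]; omega
  have := h2 (o + 1)
  omega

/-- arithmetic end game -/
theorem end_game {l o z : ℕ} (hl : 1 ≤ l) (hz : 1 ≤ z)
    (h : 2 ^ (l - 1) * (2 * z - 1) = 3 ^ (o + 1) * z) : 2 ^ l = 3 ^ (o + 1) + 1 := by
  have hcop : Nat.Coprime (2 ^ (l - 1)) (3 ^ (o + 1)) :=
    Nat.Coprime.pow _ _ (by norm_num)
  have h1 : 2 ^ (l - 1) ∣ z := by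
    apply hcop.dvd_of_dvd_mul_left
    exact ⟨2 * z - 1, h.symm⟩
  obtain ⟨w, rfl⟩ := h1
  have hp : 0 < 2 ^ (l - 1) := by positivity
  have hw : 1 ≤ w := by
    rcases Nat.eq_zero_or_pos w with h | h
    · subst h; simp at hz
    · exact h
  have h2 : 2 * (2 ^ (l - 1) * w) - 1 = 3 ^ (o + 1) * w := by
    apply Nat.eq_of_mul_eq_mul_left hp
    rw [h]; ring
  have h3 : 2 * (2 ^ (l - 1) * w) = 2 ^ l * w := by
    obtain ⟨j, rfl⟩ : ∃ j, l = j + 1 := ⟨l - 1, by omega⟩
    simp only [Nat.add_sub_cancel]; ring
  rw [h3] at h2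
  have h4 : 2 ^ l * w = 3 ^ (o + 1) * w + 1 := by
    have : 1 ≤ 2 ^ l * w := Nat.one_le_iff_ne_zero.2 (by positivity)
    omega
  have h5 : w ∣ 1 := by
    have h6 : w ∣ 3 ^ (o + 1) * w + 1 := h4 ▸ Dvd.intro_left _ rfl
    exact (Nat.dvd_add_right (Dvd.intro_left _ rfl)).1 h6
  have h6 : w = 1 := Nat.dvd_one.1 h5
  subst h6
  omega

/-- **Cycles of small spread**: a periodic point of `T` whose orbit has `max ≤ 3 min` is `1` or `2`. -/
theorem cycle_spread_min {a : ℕ} (ha : 1 ≤ a) {p : ℕ} (hp : 0 < p) (hper : T^[p] a = a)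
    (hmin : ∀ i, a ≤ T^[i] a) (hmax : ∀ i, T^[i] a ≤ 3 * a) : a = 1 := by
  classical
  obtain ⟨l, hl⟩ : ∃ l, l = Function.minimalPeriod T a := ⟨_, rfl⟩
  have hlpos : 0 < l := by
    rw [hl]; exact Function.IsPeriodicPt.minimalPeriod_pos hp hper
  have hl1 : T^[l] a = a := by rw [hl]; exact Function.iterate_minimalPeriod
  have hmul : ∀ i, T^[l * i] a = a := fun i => by
    rw [Function.iterate_mul]; exact Function.iterate_fixed hl1 i
  -- the maximum
  obtain ⟨s, hs⟩ : ∃ s, ∀ i, T^[i] a ≤ T^[s] a := by
    have hfin : (Set.range fun i => T^[i] a).Finite :=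
      (Set.finite_Iic (3 * a)).subset (by rintro _ ⟨i, rfl⟩; exact hmax i)
    obtain ⟨x, ⟨s, rfl⟩, hx⟩ := hfin.exists_maximal ⟨_, 0, rfl⟩
    refine ⟨s, fun i => ?_⟩
    by_contra hlt
    have := hx ⟨i, rfl⟩ (by simp only; omega)
    simp only at this
    omega
  obtain ⟨M, hM⟩ : ∃ M, M = T^[s] a := ⟨_, rfl⟩
  rw [← hM] at hs
  have hMle : M ≤ 3 * a := by rw [hM]; exact hmax s
  have hMa : a ≤ M := by rw [hM]; exact hmin s
  -- parity of a and M
  have haodd : a % 2 = 1 := by
    by_contra h
    have h1 := T_two_even (n := a) (by omega)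
    have h2 := hmin 1
    simp only [Function.iterate_one] at h2
    omega
  have hMeven : M % 2 = 0 := by
    by_contra h
    have h1 := T_two_odd (n := M) (by omega)
    have h2 := hs (s + 1)
    rw [Function.iterate_succ_apply', ← hM] at h2
    omega
  -- odd elements and even elements of the orbit
  have hodd : ∀ i, T^[i] a % 2 = 1 → T^[i] a < 2 * a ∧ 3 * a + 1 ≤ 2 * T^[i + 1] a := by
    intro i hi
    have h1 := T_two_odd hi
    have h2 := hs (i + 1)
    rw [Function.iterate_succ_apply'] at h2 ⊢
    have h3 := hmin i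
    constructor <;> omega
  have heven : ∀ i, T^[i] a % 2 = 0 → 2 * a ≤ T^[i] a ∧ 2 * T^[i + 1] a ≤ M := by
    intro i hi
    have h1 := T_two_even hi
    have h2 := hmin (i + 1)
    rw [Function.iterate_succ_apply'] at h2 ⊢
    have h3 := hs i
    constructor <;> omega
  have hsurj : ∀ i, ∃ j, T^[i] a = T^[j + 1] a := by
    intro i
    refine ⟨i + l * 1 - 1, ?_⟩
    have : i + l * 1 - 1 + 1 = i + l * 1 := by omega
    rw [this, Function.iterate_add_apply, hmul]
  -- u_j, v_j
  have hTM : 2 * T M = M := T_two_even hMeven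
  have hTa : 2 * T a = 3 * a + 1 := T_two_odd haodd
  have hu : ∀ j, T^[j + 1] M = T^[j + 1 + s] a := fun j => by
    rw [hM, ← Function.iterate_add_apply]
  have key : ∀ j, (∀ i, i < j → i + 2 < l) →
      T^[j + 1] M < T^[j + 1] a ∧
      (∀ i, ¬ (T^[j + 1] M < T^[i] a ∧ T^[i] a < T^[j + 1] a)) ∧
      ∃ o, 2 ^ j * (T^[j + 1] a - T^[j + 1] M) = 3 ^ o * (T a - T M) := by
    intro j
    induction j with
    | zero =>
      intro _
      refine ⟨by simp only [zero_add, Function.iterate_one]; omega, ?_, 0, by simp⟩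
      rintro i ⟨h1, h2⟩
      simp only [zero_add, Function.iterate_one] at h1 h2
      obtain ⟨j, hj⟩ := hsurj i
      rw [hj] at h1 h2
      rcases Nat.mod_two_eq_zero_or_one (T^[j] a) with h | h
      · have := (heven j h).2; omega
      · have := (hodd j h).2; omega
    | succ j ih =>
      intro hj
      obtain ⟨h1, h2, o, h3⟩ := ih (fun i hi => hj i (by omega))
      have hjl := hj j (by omega)
      have hU : T^[j + 1 + 1] M = T (T^[j + 1] M) := Function.iterate_succ_apply' _ _ _
      have hV : T^[j + 1 + 1] a = T (T^[j + 1] a) := Function.iterate_succ_apply' _ _ _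
      -- same parity
      have hpar : (T^[j + 1] M) % 2 = (T^[j + 1] a) % 2 := by
        by_contra hne
        rcases Nat.mod_two_eq_zero_or_one (T^[j + 1] a) with h | h
        · -- v even, u odd
          have hv := heven (j + 1) h
          -- v = 2a since 2a is in the orbit and consecutive
          have h2a : T^[l - 1] a = 2 * a := by
            have h5 : T (T^[l - 1] a) = a := by
              rw [← Function.iterate_succ_apply' T]
              have : (l - 1).succ = l := by omega
              rw [this, hl1]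
            rcases Nat.mod_two_eq_zero_or_one (T^[l - 1] a) with h6 | h6
            · have := T_two_even h6; omega
            · have := T_two_odd h6
              have := hmin (l - 1)
              omega
          have hu1 : T^[j + 1] M % 2 = 1 := by omega
          have hu2 : T^[j + 1] M < 2 * a := by
            have := hodd (j + 1 + s) (by rw [← hu]; exact hu1)
            rw [hu]; exact this.1
          have hveq : T^[j + 1] a = 2 * a := by
            have h7 := h2 (l - 1)
            rw [h2a] at h7
            omega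
          have hva : T^[j + 1 + 1] a = a := by
            rw [hV]
            have := T_two_even h
            omega
          have hdvd : l ∣ j + 1 + 1 := by
            rw [hl]
            exact Function.IsPeriodicPt.minimalPeriod_dvd hva
          have := Nat.le_of_dvd (by omega) hdvd
          omega
        · have hv := hodd (j + 1) h
          have hu1 : T^[j + 1] M % 2 = 0 := by omega
          have hu2 := heven (j + 1 + s) (by rw [← hu]; exact hu1)
          rw [← hu] at hu2
          omega
      rcases Nat.mod_two_eq_zero_or_one (T^[j + 1] a) with h | h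
      · have hue : T^[j + 1] M % 2 = 0 := by omega
        have e1 := T_two_even h
        have e2 := T_two_even hue
        refine ⟨by rw [hU, hV]; omega, ?_, o, ?_⟩
        · rintro i ⟨h4, h5⟩
          obtain ⟨i', hi'⟩ := hsurj i
          rw [hi'] at h4 h5
          rw [hU] at h4
          rw [hV] at h5
          rcases Nat.mod_two_eq_zero_or_one (T^[i'] a) with h6 | h6
          · have e3 : 2 * T^[i' + 1] a = T^[i'] a := by
              rw [Function.iterate_succ_apply']; exact T_two_even h6
            exact h2 i' ⟨by omega, by omega⟩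
          · have e3 := (hodd i' h6).2
            have e4 := hs (j + 1)
            omega
        · rw [hU, hV, ← h3, pow_succ]
          have : T^[j + 1] a - T^[j + 1] M = 2 * (T (T^[j + 1] a) - T (T^[j + 1] M)) := by omega
          rw [this]; ring
      · have hue : T^[j + 1] M % 2 = 1 := by omega
        have e1 := T_two_odd h
        have e2 := T_two_odd hue
        refine ⟨by rw [hU, hV]; omega, ?_, o + 1, ?_⟩
        · rintro i ⟨h4, h5⟩
          obtain ⟨i', hi'⟩ := hsurj i
          rw [hi'] at h4 h5
          rw [hU] at h4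
          rw [hV] at h5
          rcases Nat.mod_two_eq_zero_or_one (T^[i'] a) with h6 | h6
          · have e3 := (heven i' h6).2
            have e4 := (hodd (j + 1 + s) (by rw [← hu]; exact hue)).2
            have e5 : T^[j + 1 + s + 1] a = T (T^[j + 1] M) := by
              rw [Function.iterate_succ_apply', ← hu]
            rw [e5] at e4
            omega
          · have e3 : 2 * T^[i' + 1] a = 3 * T^[i'] a + 1 := by
              rw [Function.iterate_succ_apply']; exact T_two_odd h6
            exact h2 i' ⟨by omega, by omega⟩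
        · rw [hU, hV]
          have h7 : 3 * (T^[j + 1] a - T^[j + 1] M) = 2 * (T (T^[j + 1] a) - T (T^[j + 1] M)) := by omega
          calc 2 ^ (j + 1) * (T (T^[j + 1] a) - T (T^[j + 1] M))
              = 2 ^ j * (2 * (T (T^[j + 1] a) - T (T^[j + 1] M))) := by ring
            _ = 3 * (2 ^ j * (T^[j + 1] a - T^[j + 1] M)) := by rw [← h7]; ring
            _ = 3 ^ (o + 1) * (T a - T M) := by rw [h3]; ring
  -- l ≥ 2
  have hl2 : 2 ≤ l := by
    by_contra h
    have : l = 1 := by omega
    rw [this] at hl1
    simp only [Function.iterate_one] at hl1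
    omega
  obtain ⟨h1, h2, o, h3⟩ := key (l - 2) (fun i hi => by omega)
  have e1 : l - 2 + 1 = l - 1 := by omega
  rw [e1] at h1 h2 h3
  -- v = 2a
  have h2a : T^[l - 1] a = 2 * a := by
    have h5 : T (T^[l - 1] a) = a := by
      rw [← Function.iterate_succ_apply' T]
      have : (l - 1).succ = l := by omega
      rw [this, hl1]
    rcases Nat.mod_two_eq_zero_or_one (T^[l - 1] a) with h6 | h6
    · have := T_two_even h6; omega
    · have := T_two_odd h6
      have := hmin (l - 1)
      omega
  have huM : T (T^[l - 1] M) = M := by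
    rw [← Function.iterate_succ_apply' T]
    have : (l - 1).succ = l := by omega
    rw [this, hM, ← Function.iterate_add_apply, add_comm, Function.iterate_add_apply, hl1]
  have huodd : T^[l - 1] M % 2 = 1 := by
    by_contra h
    have h5 := T_two_even (n := T^[l - 1] M) (by omega)
    rw [huM] at h5
    rw [h2a] at h1
    omega
  have h5 := T_two_odd huodd
  rw [huM] at h5
  rw [h2a] at h3
  obtain ⟨z, hz⟩ : ∃ z, z = 3 * a + 1 - M := ⟨_, rfl⟩
  have hz1 : 1 ≤ z := by omega
  have h6 : 3 * (2 * a - T^[l - 1] M) = 2 * z - 1 := by omega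
  have h7 : 2 * (T a - T M) = z := by omega
  have h8 : 2 ^ (l - 1) * (2 * z - 1) = 3 ^ (o + 1) * z := by
    rw [← h6, ← h7]
    have e2 : 2 ^ (l - 1) = 2 ^ (l - 2) * 2 := by
      rw [← pow_succ]; congr 1; omega
    rw [e2]
    calc 2 ^ (l - 2) * 2 * (3 * (2 * a - T^[l - 1] M))
        = 6 * (2 ^ (l - 2) * (2 * a - T^[l - 1] M)) := by ring
      _ = 6 * (3 ^ o * (T a - T M)) := by rw [h3]
      _ = 3 ^ (o + 1) * (2 * (T a - T M)) := by ring
  have h9 := end_game (l := l) (by omega) hz1 h8
  have h10 := two_pow_eq h9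
  have hl2' : l = 2 := by omega
  subst hl2'
  -- 2-cycle
  have h11 : T^[2] a = T (T a) := rfl
  rw [h11] at hl1
  rcases Nat.mod_two_eq_zero_or_one (T a) with h | h
  · have := T_two_even h; omega
  · have := T_two_odd h; omega

theorem cycle_spread {m : ℕ} (hm : 1 ≤ m) {p : ℕ} (hp : 0 < p) (hper : T^[p] m = m)
    (h : ∀ i j, T^[i] m ≤ 3 * T^[j] m) : m ≤ 2 := by
  classical
  -- the minimum of the orbit
  obtain ⟨i, hi⟩ : ∃ i, ∀ j, T^[i] m ≤ T^[j] m := by
    have hne : (Set.range fun i => T^[i] m).Nonempty := ⟨_, 0, rfl⟩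
    obtain ⟨i, hi⟩ := Nat.sInf_mem hne
    exact ⟨i, fun j => by
      have := Nat.sInf_le (s := Set.range fun i => T^[i] m) ⟨j, rfl⟩
      simp only at hi this
      omega⟩
  have hper2 : T^[p] (T^[i] m) = T^[i] m := by
    rw [← Function.iterate_add_apply, add_comm, Function.iterate_add_apply, hper]
  have h1 := cycle_spread_min (T_iter_pos hm i) hp hper2
    (fun j => by rw [← Function.iterate_add_apply]; exact hi _)
    (fun j => by rw [← Function.iterate_add_apply]; exact h _ _)
  -- the orbit of m contains 1, hence m ∈ {1,2}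
  have hmul : T^[p * i] m = m := by
    rw [Function.iterate_mul]; exact Function.iterate_fixed hper i
  have hle : i ≤ p * i := Nat.le_mul_of_pos_left i hp
  have h2 : m = T^[p * i - i] 1 := by
    rw [← h1, ← Function.iterate_add_apply, Nat.sub_add_cancel hle, hmul]
  have h3 : ∀ k, T^[k] 1 = 1 ∨ T^[k] 1 = 2 := by
    intro k
    induction k with
    | zero => left; rfl
    | succ k ih =>
      rw [Function.iterate_succ_apply']
      rcases ih with ih | ih <;> rw [ih]
      · right; decide
      · left; decide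
  rcases h3 (p * i - i) with h4 | h4 <;> omega

end Pool.Agent.H934R2.Ch
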