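import Pool.Agent.H934R2.Ch.Basic

/-!
From positive lower density of the integers reaching `1` to positive lower density of the odd
integers reaching `1`.
-/

set_option autoImplicit false

namespace Pool.Agent.H934R2.Ch

/-- integers `0 < n ≤ N` whose Collatz orbit reaches `1` -/
def Good (N : ℕ) : Set ℕ := {n : ℕ | 0 < n ∧ n ≤ N ∧ ∃ k, T^[k] n = 1}

/-- odd integers `0 < n ≤ N` whose Collatz orbit reaches `1` -/
def GoodOdd (N : ℕ) : Set ℕ := {n : ℕ | n % 2 = 1 ∧ n ≤ N ∧ ∃ k, T^[k] n = 1}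

theorem Good_finite (N : ℕ) : (Good N).Finite :=
  (Set.finite_Iic N).subset fun _ h => h.2.1

theorem GoodOdd_finite (N : ℕ) : (GoodOdd N).Finite :=
  (Set.finite_Iic N).subset fun _ h => h.2.1

theorem half_good {n : ℕ} (hn : 0 < n) (he : n % 2 = 0) (h : ∃ k, T^[k] n = 1) :
    ∃ k, T^[k] (n / 2) = 1 := by
  obtain ⟨k, hk⟩ := h
  rcases k with _ | k
  · simp at hk; omega
  · rw [Function.iterate_succ_apply] at hk
    have : T n = n / 2 := by unfold T; rw [if_pos he]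
    rw [this] at hk
    exact ⟨k, hk⟩

theorem good_step (N : ℕ) : (Good N).ncard ≤ (GoodOdd N).ncard + (Good (N / 2)).ncard := by
  have hsub : Good N ⊆ GoodOdd N ∪ (fun n => 2 * n) '' Good (N / 2) := by
    intro n hn
    obtain ⟨h1, h2, h3⟩ := hn
    rcases Nat.mod_two_eq_zero_or_one n with h | h
    · right
      exact ⟨n / 2, ⟨by omega, by omega, half_good h1 h h3⟩, by simp only; omega⟩
    · left; exact ⟨h, h2, h3⟩
  calc (Good N).ncard ≤ (GoodOdd N ∪ (fun n => 2 * n) '' Good (N / 2)).ncard :=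
        Set.ncard_le_ncard hsub ((GoodOdd_finite N).union ((Good_finite _).image _))
    _ ≤ (GoodOdd N).ncard + ((fun n => 2 * n) '' Good (N / 2)).ncard := Set.ncard_union_le _ _
    _ ≤ (GoodOdd N).ncard + (Good (N / 2)).ncard := by
        have := Set.ncard_image_le (f := fun n => 2 * n) (Good_finite (N / 2))
        omega

theorem goodOdd_mono {M N : ℕ} (h : M ≤ N) : (GoodOdd M).ncard ≤ (GoodOdd N).ncard :=
  Set.ncard_le_ncard (fun _ hn => ⟨hn.1, le_trans hn.2.1 h, hn.2.2⟩) (GoodOdd_finite N)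

theorem good_le (N J : ℕ) : (Good N).ncard ≤ J * (GoodOdd N).ncard + N / 2 ^ J := by
  induction J generalizing N with
  | zero =>
    simp only [zero_mul, pow_zero, Nat.div_one, zero_add]
    calc (Good N).ncard ≤ (Set.Icc 1 N).ncard :=
          Set.ncard_le_ncard (fun n hn => ⟨hn.1, hn.2.1⟩) (Set.finite_Icc 1 N)
      _ = N := by simp [Set.ncard_eq_toFinset_card']
  | succ J ih =>
    have h1 := good_step N
    have h2 := ih (N / 2)
    have h3 : (GoodOdd (N / 2)).ncard ≤ (GoodOdd N).ncard := goodOdd_mono (Nat.div_le_self _ _)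
    have h4 : N / 2 / 2 ^ J = N / 2 ^ (J + 1) := by
      rw [Nat.div_div_eq_div_mul, pow_succ']
    rw [h4] at h2
    have h5 : J * (GoodOdd (N / 2)).ncard ≤ J * (GoodOdd N).ncard := Nat.mul_le_mul_left J h3
    calc (Good N).ncard ≤ (GoodOdd N).ncard + (Good (N / 2)).ncard := h1
      _ ≤ (GoodOdd N).ncard + (J * (GoodOdd N).ncard + N / 2 ^ (J + 1)) := by omega
      _ = (J + 1) * (GoodOdd N).ncard + N / 2 ^ (J + 1) := by ring

/-- positive lower density passes to the odd integers -/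
theorem goodOdd_pos (h : ∃ c : ℝ, 0 < c ∧ ∃ N0 : ℕ, ∀ N : ℕ, N0 ≤ N → c * N ≤ (Good N).ncard) :
    ∃ c : ℝ, 0 < c ∧ ∃ N0 : ℕ, ∀ N : ℕ, N0 ≤ N → c * N ≤ (GoodOdd N).ncard := by
  obtain ⟨c, hc, N0, hN0⟩ := h
  obtain ⟨J, hJ⟩ : ∃ J : ℕ, (1 / 2 : ℝ) ^ J < c / 2 :=
    exists_pow_lt_of_lt_one (by linarith) (by norm_num)
  refine ⟨c / (2 * (J + 1)), by positivity, N0, fun N hN => ?_⟩
  have h1 := hN0 N hN
  have h2 := good_le N J
  have h3 : ((Good N).ncard : ℝ) ≤ J * (GoodOdd N).ncard + ((N / 2 ^ J : ℕ) : ℝ) := by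
    exact_mod_cast h2
  have h4 : ((N / 2 ^ J : ℕ) : ℝ) ≤ c / 2 * N := by
    calc ((N / 2 ^ J : ℕ) : ℝ) ≤ (N : ℝ) / (2 ^ J : ℕ) := Nat.cast_div_le
      _ = (1 / 2 : ℝ) ^ J * N := by push_cast; rw [one_div, inv_pow]; field_simp
      _ ≤ c / 2 * N := mul_le_mul_of_nonneg_right hJ.le (by positivity)
  have h5 : c / 2 * N ≤ J * (GoodOdd N).ncard := by linarith
  have h6 : c / 2 * N ≤ (J + 1) * (GoodOdd N).ncard := by
    have : (0 : ℝ) ≤ (GoodOdd N).ncard := by positivity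
    linarith
  rw [div_mul_eq_mul_div, div_le_iff₀ (by positivity)]
  linarith

end Pool.Agent.H934R2.Ch
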