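import Pool.Agent.H934R2.Ch.Basic

/-!
Derivative of Chamberland's map, its critical points, products along orbits.
-/

set_option autoImplicit false

namespace Pool.Agent.H934R2.Ch

open Real

/-- the derivative of `f` -/
noncomputable def df (x : ℝ) : ℝ :=
  1 - Real.cos (Real.pi * x) / 2 + Real.pi * (2 * x + 1) / 4 * Real.sin (Real.pi * x)

theorem hasDerivAt_f (x : ℝ) : HasDerivAt f (df x) x := by
  have h1 : HasDerivAt (fun x : ℝ => Real.cos (Real.pi * x)) (-Real.sin (Real.pi * x) * (Real.pi * 1)) x :=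
    (Real.hasDerivAt_cos (Real.pi * x)).comp x ((hasDerivAt_id x).const_mul Real.pi)
  have h2 : HasDerivAt (fun x : ℝ => (2 * x + 1) / 4) ((2 * 1 + 0) / 4) x :=
    ((((hasDerivAt_id x).const_mul 2).add (hasDerivAt_const x (1 : ℝ))).div_const 4)
  have h3 := ((hasDerivAt_id x).add (hasDerivAt_const x (1 / 4 : ℝ))).sub (h2.mul h1)
  have e : (1 : ℝ) + 0 - ((2 * 1 + 0) / 4 * Real.cos (Real.pi * x)
      + (2 * x + 1) / 4 * (-Real.sin (Real.pi * x) * (Real.pi * 1))) = df x := by
    unfold df; ring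
  rw [e] at h3
  exact h3

theorem deriv_f : deriv f = df := funext fun x => (hasDerivAt_f x).deriv

theorem continuous_f : Continuous f := by
  unfold f; fun_prop

theorem continuous_df : Continuous df := by
  unfold df; fun_prop

theorem differentiable_f : Differentiable ℝ f := fun x => (hasDerivAt_f x).differentiableAt

theorem df_even (m : ℕ) (d : ℝ) :
    df ((2 * m : ℕ) + d) = 1 - Real.cos (Real.pi * d) / 2
      + Real.pi * (4 * m + 2 * d + 1) / 4 * Real.sin (Real.pi * d) := by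
  unfold df
  have : Real.pi * (((2 * m : ℕ) : ℝ) + d) = Real.pi * d + (m : ℕ) * (2 * Real.pi) := by
    push_cast; ring
  rw [cos_even, this, Real.sin_add_nat_mul_two_pi]; push_cast; ring

theorem df_odd (m : ℕ) (d : ℝ) :
    df ((2 * m + 1 : ℕ) + d) = 1 + Real.cos (Real.pi * d) / 2
      - Real.pi * (4 * m + 2 * d + 3) / 4 * Real.sin (Real.pi * d) := by
  unfold df
  have : Real.pi * (((2 * m + 1 : ℕ) : ℝ) + d) = (Real.pi * d + Real.pi) + (m : ℕ) * (2 * Real.pi) := by
    push_cast; ring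
  rw [cos_odd, this, Real.sin_add_nat_mul_two_pi, Real.sin_add_pi]; push_cast; ring

/-- left side of an even integer `2m` -/
theorem df_even_left (m : ℕ) (e : ℝ) :
    df ((2 * m : ℕ) - e) = 1 - Real.cos (Real.pi * e) / 2
      - Real.pi * (4 * m - 2 * e + 1) / 4 * Real.sin (Real.pi * e) := by
  have h := df_even m (-e)
  have e1 : Real.pi * (-e) = -(Real.pi * e) := by ring
  rw [e1, Real.cos_neg, Real.sin_neg] at h
  have e2 : ((2 * m : ℕ) : ℝ) - e = ((2 * m : ℕ) : ℝ) + -e := by ring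
  rw [e2, h]; ring

/-- no critical point in `(2m, 2m+1)` -/
theorem df_pos_even (m : ℕ) (d : ℝ) (h0 : 0 ≤ d) (h1 : d ≤ 1) : 0 < df ((2 * m : ℕ) + d) := by
  rw [df_even]
  have hs : 0 ≤ Real.sin (Real.pi * d) :=
    Real.sin_nonneg_of_nonneg_of_le_pi (mul_nonneg Real.pi_pos.le h0)
      (by nlinarith [Real.pi_pos])
  have hc : Real.cos (Real.pi * d) ≤ 1 := Real.cos_le_one _
  have h2 : 0 ≤ Real.pi * (4 * m + 2 * d + 1) / 4 * Real.sin (Real.pi * d) := by
    apply mul_nonneg _ hs
    have := Real.pi_pos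
    positivity
  linarith

theorem df_odd_anti (m : ℕ) {d d' : ℝ} (h0 : 0 ≤ d) (h : d < d') (h1 : d' ≤ 1 / 2) :
    df ((2 * m + 1 : ℕ) + d') < df ((2 * m + 1 : ℕ) + d) := by
  rw [df_odd, df_odd]
  have hp := Real.pi_pos
  have hpd : 0 ≤ Real.pi * d := mul_nonneg hp.le h0
  have hlt : Real.pi * d < Real.pi * d' := mul_lt_mul_of_pos_left h hp
  have hle : Real.pi * d' ≤ Real.pi / 2 := by nlinarith
  have hc : Real.cos (Real.pi * d') < Real.cos (Real.pi * d) :=
    Real.cos_lt_cos_of_nonneg_of_le_pi_div_two hpd hle hlt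
  have hs : Real.sin (Real.pi * d) < Real.sin (Real.pi * d') :=
    Real.sin_lt_sin_of_lt_of_le_pi_div_two (by linarith) hle hlt
  have hs0 : 0 ≤ Real.sin (Real.pi * d) :=
    Real.sin_nonneg_of_nonneg_of_le_pi hpd (by linarith)
  have hm : (0 : ℝ) ≤ m := by positivity
  have h3 : Real.pi * (4 * m + 2 * d + 3) / 4 * Real.sin (Real.pi * d)
      ≤ Real.pi * (4 * m + 2 * d' + 3) / 4 * Real.sin (Real.pi * d') := by
    have hd'0 : 0 ≤ Real.pi * (4 * m + 2 * d' + 3) := mul_nonneg hp.le (by linarith)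
    apply mul_le_mul _ hs.le hs0 (by linarith)
    have : Real.pi * (4 * m + 2 * d + 3) ≤ Real.pi * (4 * m + 2 * d' + 3) :=
      mul_le_mul_of_nonneg_left (by linarith) hp.le
    linarith
  linarith

theorem df_odd_zero (m : ℕ) : df ((2 * m + 1 : ℕ) + 0) = 3 / 2 := by
  rw [df_odd]; simp; norm_num

theorem df_odd_b_neg (m : ℕ) : df ((2 * m + 1 : ℕ) + b (2 * m + 1)) < 0 := by
  rw [df_odd]
  obtain ⟨s, hs⟩ : ∃ s : ℝ, s = 4 * (m : ℝ) + 3 := ⟨_, rfl⟩
  have hm : (0 : ℝ) ≤ m := by positivity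
  have hs3 : 3 ≤ s := by linarith
  have hb : b (2 * m + 1) = 5 / (6 * s) := by unfold b; rw [hs]; push_cast; ring_nf
  rw [hb]
  have hp := Real.pi_pos
  obtain ⟨t, ht⟩ : ∃ t : ℝ, t = Real.pi * (5 / (6 * s)) := ⟨_, rfl⟩
  have ht0 : 0 < t := by rw [ht]; positivity
  have hts : t * s = Real.pi * (5 / 6) := by rw [ht]; field_simp
  rw [← ht]
  have hsin := sin_lb3 ht0.le
  have hcos : Real.cos t ≤ 1 := Real.cos_le_one _
  have hpi := pi_sq_lt
  have hpi0 := pi_sq_gt
  have ht2 : t ^ 2 ≤ 0.7616 := by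
    have h1 : t ^ 2 * s ^ 2 = Real.pi ^ 2 * (25 / 36) := by
      have : t ^ 2 * s ^ 2 = (t * s) ^ 2 := by ring
      rw [this, hts]; ring
    have h9 : 9 ≤ s ^ 2 := by nlinarith
    nlinarith [sq_nonneg t]
  have hfac : 1 - t ^ 2 / 6 ≥ 0.873 := by linarith
  have hsin2 : t * 0.873 ≤ Real.sin t := by
    have : t - t ^ 3 / 6 = t * (1 - t ^ 2 / 6) := by ring
    have h2 := mul_le_mul_of_nonneg_left hfac ht0.le
    linarith
  have h5 : Real.pi * (4 * m + 2 * (5 / (6 * s)) + 3) / 4 * Real.sin t ≥ Real.pi * s / 4 * (t * 0.873) := by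
    apply mul_le_mul _ hsin2 (by positivity) (by positivity)
    have : (0 : ℝ) ≤ 5 / (6 * s) := by positivity
    have h6 : Real.pi * s ≤ Real.pi * (4 * m + 2 * (5 / (6 * s)) + 3) :=
      mul_le_mul_of_nonneg_left (by linarith) hp.le
    linarith
  have h6 : Real.pi * s / 4 * (t * 0.873) = Real.pi ^ 2 * (5 / 24) * 0.873 := by
    have : Real.pi * s / 4 * (t * 0.873) = Real.pi * (t * s) / 4 * 0.873 := by ring
    rw [this, hts]; ring
  nlinarith

/-- odd type: unique critical point in `[n, n+1/2]`, `n` odd; it lies in the trap `(n, n+b_n)` -/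
theorem crit_odd (m : ℕ) : ∃ c : ℝ, ((2 * m + 1 : ℕ) : ℝ) < c ∧ c < (2 * m + 1 : ℕ) + b (2 * m + 1) ∧
    deriv f c = 0 ∧ ∀ c' : ℝ, ((2 * m + 1 : ℕ) : ℝ) ≤ c' → c' ≤ (2 * m + 1 : ℕ) + 1 / 2 →
      deriv f c' = 0 → c' = c := by
  have hb := b_pos (2 * m + 1)
  have hb2 : b (2 * m + 1) ≤ 1 / 2 := by
    unfold b
    rw [div_le_div_iff₀ (by positivity) (by norm_num)]
    push_cast
    have : (0 : ℝ) ≤ m := by positivity
    nlinarith
  have hcont : ContinuousOn (fun d : ℝ => df ((2 * m + 1 : ℕ) + d)) (Set.Icc 0 (b (2 * m + 1))) :=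
    (continuous_df.comp (continuous_const.add continuous_id)).continuousOn
  have hiv := intermediate_value_Ioo' hb.le hcont
  have h0 : (0 : ℝ) ∈ Set.Ioo (df ((2 * m + 1 : ℕ) + b (2 * m + 1))) (df ((2 * m + 1 : ℕ) + 0)) :=
    ⟨df_odd_b_neg m, by rw [df_odd_zero]; norm_num⟩
  obtain ⟨d, ⟨hd0, hd1⟩, hd⟩ := hiv h0
  refine ⟨(2 * m + 1 : ℕ) + d, by linarith, by linarith, ?_, ?_⟩
  · rw [deriv_f]; exact hd
  · intro c' h1 h2 h3
    rw [deriv_f] at h3
    obtain ⟨d', rfl⟩ : ∃ d', c' = ((2 * m + 1 : ℕ) : ℝ) + d' := ⟨c' - (2 * m + 1 : ℕ), by ring⟩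
    have hd' : 0 ≤ d' := by linarith
    have hd'2 : d' ≤ 1 / 2 := by linarith
    simp only at hd
    rcases lt_trichotomy d d' with h | h | h
    · have := df_odd_anti m hd0.le h hd'2
      rw [h3, hd] at this; exact absurd this (lt_irrefl _)
    · rw [h]
    · have := df_odd_anti m hd' h (by linarith)
      rw [h3, hd] at this; exact absurd this (lt_irrefl _)

/-- even type: unique critical point in `[n-1/2, n]`, `n ≥ 2` even -/
theorem crit_even (m : ℕ) (hm : 1 ≤ m) : ∃ c : ℝ, ((2 * m : ℕ) : ℝ) - 1 / 4 < c ∧ c < (2 * m : ℕ) ∧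
    deriv f c = 0 ∧ ∀ c' : ℝ, ((2 * m : ℕ) : ℝ) - 1 / 2 ≤ c' → c' ≤ (2 * m : ℕ) →
      deriv f c' = 0 → c' = c := by
  have hp := Real.pi_pos
  have hp3 := Real.pi_gt_three
  have hm1 : (1 : ℝ) ≤ m := by exact_mod_cast hm
  -- negativity on [1/4,1/2]
  have hneg : ∀ e : ℝ, 1 / 4 ≤ e → e ≤ 1 / 2 → df ((2 * m : ℕ) - e) < 0 := by
    intro e h1 h2
    rw [df_even_left]
    have hs : Real.sin (Real.pi / 4) ≤ Real.sin (Real.pi * e) := by
      apply Real.sin_le_sin_of_le_of_le_pi_div_two <;> nlinarith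
    rw [Real.sin_pi_div_four] at hs
    have h2' : (1.4 : ℝ) ≤ Real.sqrt 2 := by
      apply Real.le_sqrt_of_sq_le; norm_num
    have hs' : (0.7 : ℝ) ≤ Real.sin (Real.pi * e) := by linarith
    have hc : 0 ≤ Real.cos (Real.pi * e) := by
      apply Real.cos_nonneg_of_neg_pi_div_two_le_of_le <;> nlinarith
    have h5 : Real.pi * 4 / 4 * 0.7 ≤ Real.pi * (4 * m - 2 * e + 1) / 4 * Real.sin (Real.pi * e) := by
      apply mul_le_mul _ hs' (by norm_num) _
      · have : Real.pi * 4 ≤ Real.pi * (4 * m - 2 * e + 1) :=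
          mul_le_mul_of_nonneg_left (by linarith) hp.le
        linarith
      · have : 0 ≤ Real.pi * (4 * m - 2 * e + 1) := mul_nonneg hp.le (by linarith)
        linarith
    nlinarith
  -- strict monotonicity on [0,1/4]
  have hanti : ∀ e e' : ℝ, 0 ≤ e → e < e' → e' ≤ 1 / 4 →
      df ((2 * m : ℕ) - e') < df ((2 * m : ℕ) - e) := by
    intro e e' h0 h h1
    have key : StrictAntiOn (fun s : ℝ => df ((2 * m : ℕ) - s)) (Set.Icc 0 (1 / 4)) := by
      apply strictAntiOn_of_deriv_neg (convex_Icc _ _)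
      · exact (continuous_df.comp (continuous_const.sub continuous_id)).continuousOn
      · intro s hs
        rw [interior_Icc] at hs
        obtain ⟨hs0, hs1⟩ := hs
        have hder : HasDerivAt (fun s : ℝ => df ((2 * m : ℕ) - s))
            (Real.pi * Real.sin (Real.pi * s)
              - Real.pi ^ 2 * (4 * m - 2 * s + 1) / 4 * Real.cos (Real.pi * s)) s := by
          have hfun : (fun s : ℝ => df ((2 * m : ℕ) - s)) = fun s : ℝ =>
              1 - Real.cos (Real.pi * s) / 2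
              - (Real.pi * (4 * m - 2 * s + 1) / 4) * Real.sin (Real.pi * s) := by
            funext s; rw [df_even_left]
          rw [hfun]
          have hc : HasDerivAt (fun x : ℝ => Real.cos (Real.pi * x))
              (-Real.sin (Real.pi * s) * (Real.pi * 1)) s :=
            (Real.hasDerivAt_cos (Real.pi * s)).comp s ((hasDerivAt_id s).const_mul Real.pi)
          have hsn : HasDerivAt (fun x : ℝ => Real.sin (Real.pi * x))
              (Real.cos (Real.pi * s) * (Real.pi * 1)) s :=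
            (Real.hasDerivAt_sin (Real.pi * s)).comp s ((hasDerivAt_id s).const_mul Real.pi)
          have hl : HasDerivAt (fun x : ℝ => Real.pi * (4 * m - 2 * x + 1) / 4)
              (Real.pi * (0 - 2 * 1 + 0) / 4) s :=
            (((((hasDerivAt_const s (4 * (m : ℝ))).sub ((hasDerivAt_id s).const_mul 2)).add
              (hasDerivAt_const s (1 : ℝ))).const_mul Real.pi).div_const 4)
          have hall := ((hasDerivAt_const s (1 : ℝ)).sub (hc.div_const 2)).sub (hl.mul hsn)
          have e9 : Real.pi * Real.sin (Real.pi * s)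
              - Real.pi ^ 2 * (4 * m - 2 * s + 1) / 4 * Real.cos (Real.pi * s)
              = 0 - -Real.sin (Real.pi * s) * (Real.pi * 1) / 2
              - (Real.pi * (0 - 2 * 1 + 0) / 4 * Real.sin (Real.pi * s)
                + Real.pi * (4 * m - 2 * s + 1) / 4 * (Real.cos (Real.pi * s) * (Real.pi * 1))) := by
            ring
          rw [e9]
          exact hall
        rw [hder.deriv]
        have hs' : Real.sin (Real.pi * s) ≤ Real.sin (Real.pi / 4) := by
          apply Real.sin_le_sin_of_le_of_le_pi_div_two <;> nlinarith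
        have hc' : Real.cos (Real.pi / 4) ≤ Real.cos (Real.pi * s) := by
          apply Real.cos_le_cos_of_nonneg_of_le_pi <;> nlinarith
        rw [Real.sin_pi_div_four] at hs'
        rw [Real.cos_pi_div_four] at hc'
        have hq : 0 < Real.sqrt 2 / 2 := by positivity
        have h5 : Real.pi ^ 2 * 4 / 4 * (Real.sqrt 2 / 2) ≤
            Real.pi ^ 2 * (4 * m - 2 * s + 1) / 4 * Real.cos (Real.pi * s) := by
          apply mul_le_mul _ hc' hq.le _
          · have : Real.pi ^ 2 * 4 ≤ Real.pi ^ 2 * (4 * m - 2 * s + 1) :=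
              mul_le_mul_of_nonneg_left (by linarith) (by positivity)
            linarith
          · have : 0 ≤ Real.pi ^ 2 * (4 * m - 2 * s + 1) := mul_nonneg (by positivity) (by linarith)
            linarith
        have h6 : Real.pi * Real.sin (Real.pi * s) ≤ Real.pi * (Real.sqrt 2 / 2) :=
          mul_le_mul_of_nonneg_left hs' hp.le
        nlinarith [mul_pos hp hq]
    exact key ⟨h0, by linarith⟩ ⟨by linarith, h1⟩ h
  have hcont : ContinuousOn (fun e : ℝ => df ((2 * m : ℕ) - e)) (Set.Icc 0 (1 / 4)) :=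
    (continuous_df.comp (continuous_const.sub continuous_id)).continuousOn
  have hiv := intermediate_value_Ioo' (by norm_num : (0 : ℝ) ≤ 1 / 4) hcont
  have hz : df ((2 * m : ℕ) - 0) = 1 / 2 := by
    rw [df_even_left]; simp; norm_num
  have h0 : (0 : ℝ) ∈ Set.Ioo (df ((2 * m : ℕ) - 1 / 4)) (df ((2 * m : ℕ) - 0)) :=
    ⟨hneg _ le_rfl (by norm_num), by rw [hz]; norm_num⟩
  obtain ⟨e, ⟨he0, he1⟩, he⟩ := hiv h0
  refine ⟨(2 * m : ℕ) - e, by linarith, by linarith, ?_, ?_⟩
  · rw [deriv_f]; exact he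
  · intro c' h1 h2 h3
    rw [deriv_f] at h3
    obtain ⟨e', rfl⟩ : ∃ e', c' = ((2 * m : ℕ) : ℝ) - e' := ⟨(2 * m : ℕ) - c', by ring⟩
    have he' : 0 ≤ e' := by linarith
    have he'2 : e' ≤ 1 / 2 := by linarith
    have he'4 : e' ≤ 1 / 4 := by
      by_contra hcon
      have := hneg e' (by linarith) he'2
      rw [h3] at this; exact absurd this (lt_irrefl _)
    simp only at he
    rcases lt_trichotomy e e' with h | h | h
    · have := hanti e e' he0.le h he'4
      rw [h3, he] at this; exact absurd this (lt_irrefl _)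
    · rw [h]
    · have := hanti e' e he' h he1.le
      rw [h3, he] at this; exact absurd this (lt_irrefl _)

/-- every critical point `x > 0` lies in some `(n, n+1)` with `n` odd -/
theorem crit_odd_floor {x : ℝ} (hx : 0 < x) (h : deriv f x = 0) :
    ∃ m : ℕ, ((2 * m + 1 : ℕ) : ℝ) < x ∧ x < (2 * m + 1 : ℕ) + 1 ∧ x ≠ (2 * m + 1 : ℕ) + 1 / 2 := by
  rw [deriv_f] at h
  obtain ⟨n, hn1, hn2⟩ : ∃ n : ℕ, (n : ℝ) ≤ x ∧ x < n + 1 :=
    ⟨⌊x⌋₊, Nat.floor_le hx.le, Nat.lt_floor_add_one x⟩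
  obtain ⟨d, rfl⟩ : ∃ d, x = n + d := ⟨x - n, by ring⟩
  rcases Nat.even_or_odd' n with ⟨m, rfl | rfl⟩
  · have := df_pos_even m d (by linarith) (by linarith)
    rw [h] at this; exact absurd this (lt_irrefl _)
  · refine ⟨m, ?_, hn2, ?_⟩
    · rcases hn1.lt_or_eq with h1 | h1
      · exact h1
      · exfalso
        have hd : d = 0 := by linarith
        rw [hd, df_odd_zero] at h; norm_num at h
    · intro hd
      have hd' : d = 1 / 2 := by linarith
      rw [hd', df_odd] at h
      have e1 : Real.pi * (1 / 2) = Real.pi / 2 := by ring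
      rw [e1, Real.cos_pi_div_two, Real.sin_pi_div_two] at h
      have hm : (0 : ℝ) ≤ m := by positivity
      nlinarith [Real.pi_gt_three]

/-! ### derivatives of iterates -/

theorem hasDerivAt_iter (x : ℝ) (k : ℕ) :
    HasDerivAt (f^[k]) (∏ i ∈ Finset.range k, df (f^[i] x)) x := by
  induction k with
  | zero => simpa using hasDerivAt_id x
  | succ k ih =>
    rw [Finset.prod_range_succ, Function.iterate_succ']
    have := (hasDerivAt_f (f^[k] x)).comp x ih
    rw [mul_comm] at this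
    exact this

theorem deriv_iter (x : ℝ) (k : ℕ) : deriv (f^[k]) x = ∏ i ∈ Finset.range k, df (f^[i] x) :=
  (hasDerivAt_iter x k).deriv

/-- the multiplier is the same at every point of the cycle -/
theorem deriv_iter_shift {x : ℝ} {p : ℕ} (h : f^[p] x = x) : deriv (f^[p]) (f x) = deriv (f^[p]) x := by
  rw [deriv_iter, deriv_iter]
  have h1 : ∀ i, f^[i] (f x) = f^[i + 1] x := fun i => (Function.iterate_succ_apply f i x).symm
  simp only [h1]
  have h2 := Finset.prod_range_succ' (fun i => df (f^[i] x)) p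
  have h3 := Finset.prod_range_succ (fun i => df (f^[i] x)) p
  rw [h3] at h2
  have h4 : df (f^[p] x) = df (f^[0] x) := by rw [h]; rfl
  rw [h4] at h2
  by_cases hz : df (f^[0] x) = 0
  · -- both are zero unless p = 0
    rcases Nat.eq_zero_or_pos p with hp | hp
    · subst hp; simp
    · have hA : ∏ i ∈ Finset.range p, df (f^[i] x) = 0 :=
        Finset.prod_eq_zero (Finset.mem_range.2 hp) hz
      have hB : ∏ i ∈ Finset.range p, df (f^[i + 1] x) = 0 := by
        apply Finset.prod_eq_zero (Finset.mem_range.2 (Nat.sub_lt hp one_pos))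
        have : p - 1 + 1 = p := Nat.succ_pred_eq_of_pos hp
        rw [this, h4, hz]
      rw [hA, hB]
  · exact (mul_right_cancel₀ hz h2).symm

end Pool.Agent.H934R2.Ch
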