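import Pool.Agent.H934R2.Ch.Attract
import Pool.Agent.H934R2.Ch.Dens

/-!
Assembly of the theorem on the critical points of odd type.
-/

set_option autoImplicit false

namespace Pool.Agent.H934R2.Ch

open Real Filter Topology

theorem odd_cast (n : ℕ) (h : n % 2 = 1) : ∃ m : ℕ, n = 2 * m + 1 := ⟨n / 2, by omega⟩

theorem b_lt_half (n : ℕ) (hn : 1 ≤ n) : b n < 1 / 2 := by
  have := b_le hn; linarith

/-- a critical point of odd type lies in the trap -/
theorem crit_in_trap {n : ℕ} (hn : n % 2 = 1) {x : ℝ} (h1 : (n : ℝ) < x) (h2 : x < n + 1 / 2)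
    (h : deriv f x = 0) : x ∈ Set.Icc (n : ℝ) (n + b n) := by
  obtain ⟨m, rfl⟩ := odd_cast n hn
  obtain ⟨c, hc1, hc2, _, huniq⟩ := crit_odd m
  have := huniq x h1.le h2.le h
  rw [this]
  exact ⟨hc1.le, hc2.le⟩

theorem exists_unique_odd (n : ℕ) (hn : n % 2 = 1) :
    ∃! x : ℝ, (n : ℝ) < x ∧ x < n + 1 / 2 ∧ deriv f x = 0 := by
  obtain ⟨m, rfl⟩ := odd_cast n hn
  obtain ⟨c, hc1, hc2, hc, huniq⟩ := crit_odd m
  refine ⟨c, ⟨hc1, ?_, hc⟩, ?_⟩
  · have := b_lt_half (2 * m + 1) (by omega)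
    linarith
  · rintro x ⟨h1, h2, h3⟩
    exact huniq x h1.le h2.le h3

theorem exists_unique_even (n : ℕ) (hn : n % 2 = 1) :
    ∃! x : ℝ, (n : ℝ) + 1 / 2 < x ∧ x < n + 1 ∧ deriv f x = 0 := by
  obtain ⟨m, rfl⟩ := odd_cast n hn
  obtain ⟨c, hc1, hc2, hc, huniq⟩ := crit_even (m + 1) (by omega)
  push_cast at hc1 hc2 huniq ⊢
  refine ⟨c, ⟨by linarith, by linarith, hc⟩, ?_⟩
  rintro x ⟨h1, h2, h3⟩
  exact huniq x (by linarith) (by linarith) h3

theorem crit_class {x : ℝ} (hx : 0 < x) (h : deriv f x = 0) :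
    ∃ n : ℕ, n % 2 = 1 ∧ ((n : ℝ) < x ∧ x < n + 1 / 2 ∨ (n : ℝ) + 1 / 2 < x ∧ x < n + 1) := by
  obtain ⟨m, h1, h2, h3⟩ := crit_odd_floor hx h
  refine ⟨2 * m + 1, by omega, ?_⟩
  rcases lt_trichotomy x ((2 * m + 1 : ℕ) + 1 / 2) with h4 | h4 | h4
  · left; exact ⟨h1, h4⟩
  · exact absurd h4 h3
  · right; exact ⟨h4, h2⟩

theorem f_one : f 1 = 2 := by
  have := f_odd 0 0
  simp at this
  linarith

theorem f_two : f 2 = 1 := by
  have := f_even 1 0
  simp at this
  linarith

theorem attrPt_of_two {y : ℝ} (h0 : 0 < y) (h2 : f (f y) = y) (hne : f y ≠ y)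
    (hm : |df (f y) * df y| < 1) : AttrPt y := by
  have hper : Function.IsPeriodicPt f 2 y := h2
  have hdvd := hper.minimalPeriod_dvd
  have hpos : 0 < Function.minimalPeriod f y :=
    Function.IsPeriodicPt.minimalPeriod_pos (by norm_num) hper
  have hp2 : Function.minimalPeriod f y = 2 := by
    have hle := Nat.le_of_dvd (by norm_num) hdvd
    have hne1 : Function.minimalPeriod f y ≠ 1 := by
      intro h1
      exact hne (Function.minimalPeriod_eq_one_iff_isFixedPt.1 h1)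
    omega
  refine ⟨h0, hpos, ?_⟩
  rw [hp2, deriv_iter]
  simp only [Finset.prod_range_succ, Finset.prod_range_zero, one_mul, Function.iterate_zero,
    id_eq, Function.iterate_one]
  rw [mul_comm]; exact hm

theorem known_attr {a : ℝ} (ha : a ∈ Set.Icc (1.19 : ℝ) 1.196) (hga : g a = a) {y : ℝ}
    (h : Known a y) : AttrPt y := by
  have hd1 : df 1 = 3 / 2 := by have := df_odd_zero 0; norm_num at this; exact this
  have hd2 : df 2 = 1 / 2 := by
    have := df_even 1 0
    norm_num at this; exact this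
  have hfa := f_ge_2 (x := a) (by linarith [ha.1]) (by linarith [ha.2])
  have hfa2 := f_le_214 (x := a) (by linarith [ha.1]) (by linarith [ha.2])
  have hda := df_K ha.1 ha.2
  have hdfa := df_2K hfa hfa2
  have hprod : |df (f a) * df a| < 1 := by
    rw [abs_mul]
    nlinarith [abs_nonneg (df a), abs_nonneg (df (f a))]
  have hga' : f (f a) = a := hga
  rcases h with h | h | h | h <;> rw [h]
  · apply attrPt_of_two (by norm_num)
    · rw [f_one, f_two]
    · rw [f_one]; norm_num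
    · rw [f_one, hd1, hd2]; norm_num
  · apply attrPt_of_two (by norm_num)
    · rw [f_two, f_one]
    · rw [f_two]; norm_num
    · rw [f_two, hd1, hd2]; norm_num
  · apply attrPt_of_two (by linarith [ha.1]) hga'
    · intro hh; linarith [ha.2]
    · exact hprod
  · apply attrPt_of_two (by linarith)
    · rw [hga']
    · rw [hga']; intro hh; linarith [ha.2]
    · rw [hga', mul_comm]; exact hprod

/-- positive proportion of the critical points, given the positive density theorem -/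
theorem density_of (hdens : ∃ c : ℝ, 0 < c ∧ ∃ N0 : ℕ, ∀ N : ℕ, N0 ≤ N → c * N ≤ (Good N).ncard)
    {a : ℝ} (ha : a ∈ Set.Icc (1.19 : ℝ) 1.196) (hga : g a = a) :
    ∃ c : ℝ, 0 < c ∧ ∃ X0 : ℝ, ∀ X : ℝ, X0 ≤ X → ∃ S : Finset ℝ, c * X ≤ S.card ∧
      ∀ x ∈ S, 0 < x ∧ x ≤ X ∧ deriv f x = 0 ∧
        (∃ K, ∀ k, K ≤ k → f^[k] x ∈ Set.Icc (1 : ℝ) (1 + 5 / 18) ∪ Set.Icc (2 : ℝ) (2 + 1 / 6)) ∧
        ∀ y, AttrPt y → Attracts y x → Known a y := by
  obtain ⟨c, hc, N0, hN0⟩ := goodOdd_pos hdens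
  refine ⟨c / 2, by positivity, max (N0 + 1) 4, fun X hX => ?_⟩
  have hX1 : (N0 : ℝ) + 1 ≤ X := le_trans (le_max_left _ _) hX
  have hX4 : (4 : ℝ) ≤ X := le_trans (le_max_right _ _) hX
  obtain ⟨N, hN1, hN2⟩ : ∃ N : ℕ, (N : ℝ) ≤ X - 1 ∧ X - 1 < N + 1 :=
    ⟨⌊X - 1⌋₊, Nat.floor_le (by linarith), Nat.lt_floor_add_one _⟩
  have hNN : N0 ≤ N := by
    have : (N0 : ℝ) < N + 1 := by linarith
    have : N0 < N + 1 := by exact_mod_cast this
    omega
  have hcard := hN0 N hNN
  -- choose the critical point over each odd n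
  choose! φ hφ using fun (n : ℕ) (hn : n % 2 = 1) => (exists_unique_odd n hn).exists
  have hfin := GoodOdd_finite N
  refine ⟨hfin.toFinset.image φ, ?_, ?_⟩
  · have hinj : Set.InjOn φ (hfin.toFinset : Set ℕ) := by
      intro n hn m hm h
      rw [Set.Finite.coe_toFinset] at hn hm
      have h1 := hφ n hn.1
      have h2 := hφ m hm.1
      rw [h] at h1
      have h5 : (n : ℝ) < m + 1 := by linarith [h1.1, h2.2.1]
      have h6 : (m : ℝ) < n + 1 := by linarith [h2.1, h1.2.1]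
      have h7 : n < m + 1 := by exact_mod_cast h5
      have h8 : m < n + 1 := by exact_mod_cast h6
      omega
    rw [Finset.card_image_of_injOn hinj, ← Set.ncard_eq_toFinset_card _ hfin]
    refine le_trans ?_ hcard
    have : X / 2 ≤ N := by linarith
    calc c / 2 * X = c * (X / 2) := by ring
      _ ≤ c * N := mul_le_mul_of_nonneg_left this hc.le
  · intro x hx
    rw [Finset.mem_image] at hx
    obtain ⟨n, hn, rfl⟩ := hx
    rw [Set.Finite.mem_toFinset] at hn
    obtain ⟨hodd, hle, k, hk⟩ := hn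
    obtain ⟨h1, h2, h3⟩ := hφ n hodd
    have hn1 : 1 ≤ n := by omega
    have hn1' : (1 : ℝ) ≤ n := by exact_mod_cast hn1
    have hle' : (n : ℝ) ≤ N := by exact_mod_cast hle
    have htrap := crit_in_trap hodd h1 h2 h3
    refine ⟨by linarith, by linarith, h3, ⟨k, fun i hi => ?_⟩, fun y hy hatt =>
      reach_one ha hga hn1 hk htrap hy hatt⟩
    have hs := shadow hn1 htrap i
    rcases T_after_one hk hi with h4 | h4
    · rw [h4, b1] at hs; left; push_cast at hs; exact hs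
    · rw [h4, b2] at hs; right; push_cast at hs; exact hs

end Pool.Agent.H934R2.Ch
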