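import Pool.Agent.H934R2.Ch.Attract

/-!
Left shadowing: points just below the integers.
-/

set_option autoImplicit false

namespace Pool.Agent.H934R2.Ch

open Real

/-- displacement below an odd integer -/
theorem left_odd_eq {n : ℕ} (h : n % 2 = 1) (e : ℝ) :
    (T n : ℝ) - f (n - e) = 3 * e / 2 + ((2 * n + 1) / 4 - e / 2) * (1 - Real.cos (Real.pi * e)) ∧
      (T n : ℝ) = (3 * n + 1) / 2 := by
  obtain ⟨m, rfl⟩ : ∃ m, n = 2 * m + 1 := ⟨n / 2, by omega⟩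
  have h1 := f_odd m (-e)
  have h2 : Real.cos (Real.pi * -e) = Real.cos (Real.pi * e) := by
    rw [mul_neg, Real.cos_neg]
  rw [h2] at h1
  have h3 : (((2 * m + 1 : ℕ) : ℝ)) - e = ((2 * m + 1 : ℕ) : ℝ) + -e := by ring
  rw [h3, h1, T_odd]
  push_cast
  constructor <;> ring

/-- displacement below an even integer -/
theorem left_even_eq {n : ℕ} (h : n % 2 = 0) (e : ℝ) :
    (T n : ℝ) - f (n - e) = e / 2 - ((2 * n + 1) / 4 - e / 2) * (1 - Real.cos (Real.pi * e)) ∧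
      (T n : ℝ) = n / 2 := by
  obtain ⟨m, rfl⟩ : ∃ m, n = 2 * m := ⟨n / 2, by omega⟩
  have h1 := f_even m (-e)
  have h2 : Real.cos (Real.pi * -e) = Real.cos (Real.pi * e) := by
    rw [mul_neg, Real.cos_neg]
  rw [h2] at h1
  have h3 : (((2 * m : ℕ) : ℝ)) - e = ((2 * m : ℕ) : ℝ) + -e := by ring
  rw [h3, h1, T_even]
  push_cast
  constructor <;> ring

theorem one_sub_cos_le (e : ℝ) : 1 - Real.cos (Real.pi * e) ≤ 9.8697 / 2 * e ^ 2 := by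
  have h1 := cos_lb2 (Real.pi * e)
  have h2 := pi_sq_lt
  have h3 : (Real.pi * e) ^ 2 ≤ 9.8697 * e ^ 2 := by
    rw [mul_pow]; exact mul_le_mul_of_nonneg_right h2.le (sq_nonneg e)
  linarith

theorem one_sub_cos_nonneg (e : ℝ) : 0 ≤ 1 - Real.cos (Real.pi * e) := by
  have := Real.cos_le_one (Real.pi * e); linarith

theorem one_sub_cos_ge {e : ℝ} (h0 : 0 ≤ e) (h1 : e ≤ 1 / 2) :
    9.8695 / 2 * e ^ 2 * (1 - 0.83 * e ^ 2) ≤ 1 - Real.cos (Real.pi * e) := by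
  have hpi0 := Real.pi_pos
  have h2 := cos_ub4 (t := Real.pi * e) (by positivity)
  have h3 := pi_sq_lt
  have h4 := pi_sq_gt
  obtain ⟨P, hP⟩ : ∃ P, P = Real.pi ^ 2 := ⟨_, rfl⟩
  have e1 : (Real.pi * e) ^ 2 = P * e ^ 2 := by rw [hP]; ring
  have e2 : (Real.pi * e) ^ 4 = P ^ 2 * e ^ 4 := by rw [hP]; ring
  rw [e1, e2] at h2
  rw [← hP] at h3 h4
  have he2 : 0 ≤ e ^ 2 := sq_nonneg e
  have he2' : e ^ 2 ≤ 1 / 4 := by nlinarith
  have h5 : P * e ^ 2 / 2 - P ^ 2 * e ^ 4 / 24 = P * e ^ 2 / 2 * (1 - P * e ^ 2 / 12) := by ring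
  have h6 : 1 - 0.83 * e ^ 2 ≤ 1 - P * e ^ 2 / 12 := by nlinarith
  have h7 : 0 ≤ 1 - 0.83 * e ^ 2 := by nlinarith
  calc 9.8695 / 2 * e ^ 2 * (1 - 0.83 * e ^ 2) ≤ P * e ^ 2 / 2 * (1 - P * e ^ 2 / 12) := by
        apply mul_le_mul _ h6 h7 (by positivity)
        nlinarith
    _ = P * e ^ 2 / 2 - P ^ 2 * e ^ 4 / 24 := by rw [h5]
    _ ≤ 1 - Real.cos (Real.pi * e) := by linarith

/-- the potential -/
noncomputable def W (n : ℕ) (e : ℝ) : ℝ := n / e + 1.316 * (n : ℝ) ^ 2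

/-- odd step to the left -/
theorem left_odd {n : ℕ} (h : n % 2 = 1) {e : ℝ} (h0 : 0 < e) (h1 : e ≤ 1 / 2) :
    0 < (T n : ℝ) - f (n - e) ∧
    (T n : ℝ) - f (n - e) ≤ 3 * e / 2 + 1.234 * (2 * n + 1) * e ^ 2 ∧
    W n e ≤ W (T n) ((T n : ℝ) - f (n - e)) := by
  obtain ⟨h2, h3⟩ := left_odd_eq h e
  have h4 := one_sub_cos_le e
  have h5 := one_sub_cos_nonneg e
  have hn1 : (1 : ℝ) ≤ n := by
    have : 1 ≤ n := by omega
    exact_mod_cast this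
  obtain ⟨δ, hδ⟩ : ∃ δ, δ = (T n : ℝ) - f (n - e) := ⟨_, rfl⟩
  rw [← hδ] at h2 ⊢
  obtain ⟨u, hu⟩ : ∃ u, u = 1 - Real.cos (Real.pi * e) := ⟨_, rfl⟩
  rw [← hu] at h2 h4 h5
  have hk : 0 ≤ (2 * (n : ℝ) + 1) / 4 - e / 2 := by linarith
  have hku : 0 ≤ ((2 * (n : ℝ) + 1) / 4 - e / 2) * u := mul_nonneg hk h5
  have hδ0 : 3 * e / 2 ≤ δ := by linarith
  have hub : ((2 * (n : ℝ) + 1) / 4 - e / 2) * u ≤ (2 * n + 1) / 4 * (9.8697 / 2 * e ^ 2) := by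
    apply mul_le_mul _ h4 h5 (by positivity)
    linarith
  have hδ1 : δ ≤ 3 * e / 2 * (1 + 0.822475 * (2 * n + 1) * e) := by
    rw [h2]
    have : 3 * e / 2 * (1 + 0.822475 * (2 * n + 1) * e) = 3 * e / 2 + (2 * n + 1) / 4 * (9.8697 / 2 * e ^ 2) := by
      ring
    linarith
  have hδpos : 0 < δ := by linarith
  refine ⟨hδpos, ?_, ?_⟩
  · have : 3 * e / 2 * (1 + 0.822475 * (2 * n + 1) * e) ≤ 3 * e / 2 + 1.234 * (2 * n + 1) * e ^ 2 := by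
      have : 0 ≤ (2 * (n : ℝ) + 1) * e ^ 2 := by positivity
      nlinarith
    linarith
  · unfold W
    rw [h3]
    -- (3n+1)/2 / δ ≥ n/e - A n
    obtain ⟨A, hA⟩ : ∃ A, A = 0.822475 * (2 * (n : ℝ) + 1) := ⟨_, rfl⟩
    have hA0 : 0 ≤ A := by rw [hA]; positivity
    have h6 : n / e - A * n ≤ (3 * (n : ℝ) + 1) / 2 / δ := by
      rw [le_div_iff₀ hδpos]
      have h7 : (n / e - A * n) * δ ≤ 3 * n / 2 := by
        by_cases hneg : n / e - A * n ≤ 0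
        · have : (n / e - A * n) * δ ≤ 0 := mul_nonpos_of_nonpos_of_nonneg hneg hδpos.le
          linarith
        · have hpos := (not_le.1 hneg).le
          calc (n / e - A * n) * δ ≤ (n / e - A * n) * (3 * e / 2 * (1 + A * e)) := by
                apply mul_le_mul_of_nonneg_left _ hpos
                rw [hA]; linarith
            _ = 3 * n / 2 * (1 - (A * e) ^ 2) := by field_simp; ring
            _ ≤ 3 * n / 2 * 1 := by
                apply mul_le_mul_of_nonneg_left _ (by positivity)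
                nlinarith [sq_nonneg (A * e)]
            _ = 3 * n / 2 := by ring
      linarith
    have h8 : A * n ≤ 1.316 * (((3 * (n : ℝ) + 1) / 2) ^ 2 - (n : ℝ) ^ 2) := by
      rw [hA]; nlinarith
    linarith

/-- even step to the left -/
theorem left_even {n : ℕ} (h : n % 2 = 0) (hn : 2 ≤ n) {e : ℝ} (h0 : 0 < e) (h1 : e ≤ 1 / 2)
    (hpos : 0 < (T n : ℝ) - f (n - e)) :
    W n e < W (T n) ((T n : ℝ) - f (n - e)) := by
  obtain ⟨h2, h3⟩ := left_even_eq h e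
  have h4 := one_sub_cos_ge h0.le h1
  have hn1 : (2 : ℝ) ≤ n := by exact_mod_cast hn
  obtain ⟨δ, hδ⟩ : ∃ δ, δ = (T n : ℝ) - f (n - e) := ⟨_, rfl⟩
  rw [← hδ] at h2 hpos ⊢
  obtain ⟨u, hu⟩ : ∃ u, u = 1 - Real.cos (Real.pi * e) := ⟨_, rfl⟩
  rw [← hu] at h2 h4
  have hu1 : 3.8 * e ^ 2 ≤ u := by
    have h5 : (0.79 : ℝ) ≤ 1 - 0.83 * e ^ 2 := by nlinarith
    have h6 : 0 ≤ e ^ 2 := sq_nonneg e
    nlinarith
  have hk : (n : ℝ) / 2 ≤ (2 * (n : ℝ) + 1) / 4 - e / 2 := by linarith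
  have hlb : (n : ℝ) / 2 * (3.8 * e ^ 2) ≤ ((2 * (n : ℝ) + 1) / 4 - e / 2) * u := by
    apply mul_le_mul hk hu1 (by positivity)
    linarith
  have hδ1 : δ ≤ e / 2 * (1 - 3.8 * n * e) := by
    rw [h2]
    have : e / 2 * (1 - 3.8 * n * e) = e / 2 - (n : ℝ) / 2 * (3.8 * e ^ 2) := by ring
    linarith
  have hq : 0 < 1 - 3.8 * n * e := by
    by_contra hneg
    have : e / 2 * (1 - 3.8 * n * e) ≤ 0 := mul_nonpos_of_nonneg_of_nonpos (by linarith) (not_lt.1 hneg)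
    linarith
  unfold W
  rw [h3]
  have h6 : n / e + 3.8 * (n : ℝ) ^ 2 ≤ (n : ℝ) / 2 / δ := by
    rw [le_div_iff₀ hpos]
    calc (n / e + 3.8 * (n : ℝ) ^ 2) * δ ≤ (n / e + 3.8 * (n : ℝ) ^ 2) * (e / 2 * (1 - 3.8 * n * e)) := by
          apply mul_le_mul_of_nonneg_left hδ1 (by positivity)
      _ = n / 2 * (1 - (3.8 * n * e) ^ 2) := by field_simp; ring
      _ ≤ n / 2 * 1 := by
          apply mul_le_mul_of_nonneg_left _ (by positivity)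
          nlinarith [sq_nonneg (3.8 * n * e)]
      _ = n / 2 := by ring
  nlinarith

/-- a point below an even integer is mapped below or into the trap -/
theorem left_even_trap {n : ℕ} (h : n % 2 = 0) (hn : 2 ≤ n) {e : ℝ} (h0 : 0 < e) (h1 : e ≤ 1 / 2)
    (hs : (2 * n + 1) * e ≤ 1.2) (hneg : (T n : ℝ) - f (n - e) ≤ 0) : f (n - e) ∈ D := by
  obtain ⟨h2, h3⟩ := left_even_eq h e
  have h4 := one_sub_cos_le e
  have h5 := one_sub_cos_nonneg e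
  have hn1 : (2 : ℝ) ≤ n := by exact_mod_cast hn
  refine ⟨T n, T_pos (by omega), by linarith, ?_⟩
  obtain ⟨u, hu⟩ : ∃ u, u = 1 - Real.cos (Real.pi * e) := ⟨_, rfl⟩
  rw [← hu] at h2 h4 h5
  obtain ⟨M, hM⟩ : ∃ M : ℝ, M = 2 * n + 1 := ⟨_, rfl⟩
  obtain ⟨σ, hσ⟩ : ∃ σ : ℝ, σ = M * e := ⟨_, rfl⟩
  have hM5 : 5 ≤ M := by linarith
  have hub : ((2 * (n : ℝ) + 1) / 4 - e / 2) * u ≤ M / 4 * (9.8697 / 2 * e ^ 2) := by
    rw [hM]
    apply mul_le_mul _ h4 h5 (by positivity)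
    linarith
  have hσ0 : 0 ≤ σ := by rw [hσ]; positivity
  have hσ1 : σ ≤ 1.2 := by rw [hσ, hM]; exact hs
  have he : e = σ / M := by rw [hσ]; field_simp
  have h6 : M / 4 * (9.8697 / 2 * e ^ 2) - e / 2 = (1.2337125 * σ ^ 2 - σ / 2) / M := by
    rw [he]; field_simp; ring
  have h7 : 1.2337125 * σ ^ 2 - σ / 2 ≤ 1.18 := by nlinarith
  have h8 : (1.2337125 * σ ^ 2 - σ / 2) / M ≤ 1.18 / M :=
    div_le_div_of_nonneg_right h7 (by linarith)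
  have h9 : 1.18 / M ≤ b (T n) := by
    unfold b
    rw [h3, hM, div_le_div_iff₀ (by positivity) (by positivity)]
    linarith
  linarith

/-- first step from an even integer -/
theorem left_start {n : ℕ} (h : n % 2 = 0) (hn : 2 ≤ n) {e : ℝ} (h0 : 0 < e)
    (hs : (2 * n + 1) * e ≤ 3 / 4) (hpos : 0 < (T n : ℝ) - f (n - e)) :
    18.6 * (n : ℝ) ^ 2 + 9.3 * n + 1.316 * (n : ℝ) ^ 2 / 4 ≤ W (T n) ((T n : ℝ) - f (n - e)) := by
  obtain ⟨h2, h3⟩ := left_even_eq h e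
  have hn1 : (2 : ℝ) ≤ n := by exact_mod_cast hn
  have h1 : e ≤ 1 / 2 := by nlinarith
  have h4 := one_sub_cos_ge h0.le h1
  obtain ⟨δ, hδ⟩ : ∃ δ, δ = (T n : ℝ) - f (n - e) := ⟨_, rfl⟩
  rw [← hδ] at h2 hpos ⊢
  obtain ⟨u, hu⟩ : ∃ u, u = 1 - Real.cos (Real.pi * e) := ⟨_, rfl⟩
  rw [← hu] at h2 h4
  obtain ⟨M, hM⟩ : ∃ M : ℝ, M = 2 * n + 1 := ⟨_, rfl⟩
  obtain ⟨σ, hσ⟩ : ∃ σ : ℝ, σ = M * e := ⟨_, rfl⟩
  have hM5 : 5 ≤ M := by linarith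
  have hσ0 : 0 < σ := by rw [hσ]; positivity
  have hσ1 : σ ≤ 3 / 4 := by rw [hσ, hM]; exact hs
  have he : e = σ / M := by rw [hσ]; field_simp
  -- e ≤ σ / 5
  have he5 : e ≤ σ / 5 := by
    rw [he]; exact div_le_div_of_nonneg_left hσ0.le (by norm_num) hM5
  have heM : e ≤ M * (σ / 25) := by nlinarith
  have he2 : e ^ 2 ≤ σ ^ 2 / 25 := by nlinarith
  have hA : M / 4 * (1 - 0.08 * σ) ≤ (2 * (n : ℝ) + 1) / 4 - e / 2 := by
    rw [← hM]; nlinarith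
  have hB : 9.8695 / 2 * e ^ 2 * (1 - 0.0332 * σ ^ 2) ≤ u := by
    refine le_trans ?_ h4
    apply mul_le_mul_of_nonneg_left _ (by positivity)
    nlinarith
  have hB0 : 0 ≤ 9.8695 / 2 * e ^ 2 * (1 - 0.0332 * σ ^ 2) := by
    apply mul_nonneg (by positivity); nlinarith
  have hA0 : 0 ≤ M / 4 * (1 - 0.08 * σ) := by
    apply mul_nonneg (by positivity); nlinarith
  have hAB : M / 4 * (1 - 0.08 * σ) * (9.8695 / 2 * e ^ 2 * (1 - 0.0332 * σ ^ 2)) ≤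
      ((2 * (n : ℝ) + 1) / 4 - e / 2) * u := mul_le_mul hA hB hB0 (le_trans hA0 hA)
  have hMδ : M * δ ≤ σ / 2 - 1.2336875 * σ ^ 2 * ((1 - 0.08 * σ) * (1 - 0.0332 * σ ^ 2)) := by
    have h5 : M * (M / 4 * (1 - 0.08 * σ) * (9.8695 / 2 * e ^ 2 * (1 - 0.0332 * σ ^ 2)))
        = 1.2336875 * σ ^ 2 * ((1 - 0.08 * σ) * (1 - 0.0332 * σ ^ 2)) := by
      rw [hσ]; ring
    have h6 : M * δ = σ / 2 - M * (((2 * (n : ℝ) + 1) / 4 - e / 2) * u) := by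
      rw [h2, hσ]; ring
    rw [h6, ← h5]
    have := mul_le_mul_of_nonneg_left hAB (by linarith : (0 : ℝ) ≤ M)
    linarith
  have hphi : σ / 2 - 1.2336875 * σ ^ 2 * ((1 - 0.08 * σ) * (1 - 0.0332 * σ ^ 2)) ≤ 1 / 18.6 := by
    have h7 : 1 - 0.105 * σ ≤ (1 - 0.08 * σ) * (1 - 0.0332 * σ ^ 2) := by nlinarith
    have h8 : 1.2336875 * σ ^ 2 * (1 - 0.105 * σ) ≤
        1.2336875 * σ ^ 2 * ((1 - 0.08 * σ) * (1 - 0.0332 * σ ^ 2)) :=
      mul_le_mul_of_nonneg_left h7 (by positivity)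
    have h9 : σ / 2 - 1.2336875 * σ ^ 2 * (1 - 0.105 * σ) ≤ 1 / 18.6 := by
      rcases le_total σ (1 / 2) with h10 | h10
      · nlinarith [sq_nonneg (σ - 0.21), mul_nonneg hσ0.le (sq_nonneg (σ - 0.21))]
      · nlinarith [sq_nonneg (σ - 0.21), mul_nonneg hσ0.le (sq_nonneg (σ - 0.21))]
    linarith
  have hMδ2 : M * δ ≤ 1 / 18.6 := le_trans hMδ hphi
  unfold W
  rw [h3]
  have h10 : 18.6 * (n : ℝ) ^ 2 + 9.3 * n ≤ (n : ℝ) / 2 / δ := by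
    rw [le_div_iff₀ hpos]
    have : (18.6 * (n : ℝ) ^ 2 + 9.3 * n) * δ = 9.3 * n * (M * δ) := by rw [hM]; ring
    rw [this]
    calc 9.3 * (n : ℝ) * (M * δ) ≤ 9.3 * n * (1 / 18.6) :=
          mul_le_mul_of_nonneg_left hMδ2 (by positivity)
      _ = n / 2 := by ring
  nlinarith

end Pool.Agent.H934R2.Ch
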