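import Pool.Agent.H934R2.Ch.Deriv

/-!
Numerical bounds for `f` on `[1, 1+5/18]` and `[2, 2.2]`.
-/

set_option autoImplicit false

namespace Pool.Agent.H934R2.Ch

open Real

/-- upper bound for `(pi d)^2` -/
theorem pid_sq_le (d : ℝ) : (Real.pi * d) ^ 2 ≤ 9.86961 * d ^ 2 := by
  have h : Real.pi ^ 2 ≤ 9.86961 := by nlinarith [Real.pi_lt_d6, Real.pi_pos]
  have : (Real.pi * d) ^ 2 = Real.pi ^ 2 * d ^ 2 := by ring
  rw [this]; exact mul_le_mul_of_nonneg_right h (sq_nonneg d)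

theorem le_pid_sq (d : ℝ) : 9.8696 * d ^ 2 ≤ (Real.pi * d) ^ 2 := by
  have h : 9.8696 ≤ Real.pi ^ 2 := by nlinarith [Real.pi_gt_d6, Real.pi_pos]
  have : (Real.pi * d) ^ 2 = Real.pi ^ 2 * d ^ 2 := by ring
  rw [this]; exact mul_le_mul_of_nonneg_right h (sq_nonneg d)

/-- lower Taylor polynomial of `cos` in `u = t^2` -/
noncomputable def P (u : ℝ) : ℝ := 1 - u / 2 + u ^ 2 / 24 - u ^ 3 / 720
/-- upper Taylor polynomial of `cos` in `u = t^2` -/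
noncomputable def Q (u : ℝ) : ℝ := 1 - u / 2 + u ^ 2 / 24

theorem P_anti {v u : ℝ} (h0 : 0 ≤ v) (h : v ≤ u) (h1 : u ≤ 1) : P u ≤ P v := by
  unfold P
  nlinarith [mul_nonneg (sub_nonneg.2 h) (by nlinarith : 0 ≤ 1 / 2 - (u + v) / 24 + (u ^ 2 + u * v + v ^ 2) / 720)]

theorem Q_anti {v u : ℝ} (h : v ≤ u) (h1 : u ≤ 1) : Q u ≤ Q v := by
  unfold Q
  nlinarith [mul_nonneg (sub_nonneg.2 h) (by nlinarith : 0 ≤ 1 / 2 - (u + v) / 24)]

theorem cos_ge_P {d : ℝ} (h0 : 0 ≤ d) (h1 : d ≤ 0.3) : P (9.86961 * d ^ 2) ≤ Real.cos (Real.pi * d) := by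
  have h2 := cos_lb6 (mul_nonneg Real.pi_pos.le h0)
  have h3 : P ((Real.pi * d) ^ 2) ≤ Real.cos (Real.pi * d) := by
    unfold P; convert h2 using 1; ring
  refine le_trans (P_anti (sq_nonneg _) (pid_sq_le d) ?_) h3
  nlinarith

theorem cos_le_Q {d : ℝ} (h0 : 0 ≤ d) (h1 : d ≤ 0.3) : Real.cos (Real.pi * d) ≤ Q (9.8696 * d ^ 2) := by
  have h2 := cos_ub4 (mul_nonneg Real.pi_pos.le h0)
  have h3 : Real.cos (Real.pi * d) ≤ Q ((Real.pi * d) ^ 2) := by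
    unfold Q; convert h2 using 1; ring
  refine le_trans h3 (Q_anti (le_pid_sq d) ?_)
  have := pid_sq_le d
  nlinarith

theorem f1_eq (d : ℝ) : f (1 + d) = 2 + (d * (1 + Real.cos (Real.pi * d) / 2)
    - 3 / 4 * (1 - Real.cos (Real.pi * d))) := by
  have := f_odd 0 d
  push_cast at this
  norm_num at this
  rw [this]

theorem f2_eq (e : ℝ) : f (2 + e) = 1 + (5 / 4 * (1 - Real.cos (Real.pi * e))
    + e * (1 - Real.cos (Real.pi * e) / 2)) := by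
  have := f_even 1 e
  push_cast at this
  norm_num at this
  rw [this]

theorem f1_lb {d : ℝ} (h0 : 0 ≤ d) (h1 : d ≤ 0.3) :
    2 + (d * (1 + P (9.86961 * d ^ 2) / 2) - 3 / 4 * (1 - P (9.86961 * d ^ 2))) ≤ f (1 + d) := by
  rw [f1_eq]
  have := cos_ge_P h0 h1
  nlinarith

theorem f1_ub {d : ℝ} (h0 : 0 ≤ d) (h1 : d ≤ 0.3) :
    f (1 + d) ≤ 2 + (d * (1 + Q (9.8696 * d ^ 2) / 2) - 3 / 4 * (1 - Q (9.8696 * d ^ 2))) := by
  rw [f1_eq]
  have := cos_le_Q h0 h1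
  nlinarith

theorem f2_lb {e : ℝ} (h0 : 0 ≤ e) (h1 : e ≤ 0.3) :
    1 + (5 / 4 * (1 - Q (9.8696 * e ^ 2)) + e * (1 - Q (9.8696 * e ^ 2) / 2)) ≤ f (2 + e) := by
  rw [f2_eq]
  have := cos_le_Q h0 h1
  nlinarith

theorem f2_ub {e : ℝ} (h0 : 0 ≤ e) (h1 : e ≤ 0.3) :
    f (2 + e) ≤ 1 + (5 / 4 * (1 - P (9.86961 * e ^ 2)) + e * (1 - P (9.86961 * e ^ 2) / 2)) := by
  rw [f2_eq]
  have := cos_ge_P h0 h1
  nlinarith

/-- `f` is strictly increasing on `[2,3]` -/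
theorem f_mono2 {x y : ℝ} (hx : 2 ≤ x) (h : x < y) (hy : y ≤ 3) : f x < f y := by
  have key : StrictMonoOn f (Set.Icc 2 3) := by
    apply strictMonoOn_of_deriv_pos (convex_Icc _ _) continuous_f.continuousOn
    intro s hs
    rw [interior_Icc] at hs
    rw [deriv_f]
    have := df_pos_even 1 (s - 2) (by linarith [hs.1]) (by linarith [hs.2])
    have e : ((2 * 1 : ℕ) : ℝ) + (s - 2) = s := by push_cast; ring
    rwa [e] at this
  exact key ⟨hx, by linarith⟩ ⟨by linarith, hy⟩ h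

theorem f_mono2' {x y : ℝ} (hx : 2 ≤ x) (h : x ≤ y) (hy : y ≤ 3) : f x ≤ f y := by
  rcases h.lt_or_eq with h | h
  · exact (f_mono2 hx h hy).le
  · rw [h]

theorem df_anti1 {x y : ℝ} (hx : 1 ≤ x) (h : x < y) (hy : y ≤ 3 / 2) : df y < df x := by
  have := df_odd_anti 0 (d := x - 1) (d' := y - 1) (by linarith) (by linarith) (by linarith)
  have e1 : ((2 * 0 + 1 : ℕ) : ℝ) + (y - 1) = y := by push_cast; ring
  have e2 : ((2 * 0 + 1 : ℕ) : ℝ) + (x - 1) = x := by push_cast; ring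
  rwa [e1, e2] at this

theorem f_concave1 : ConcaveOn ℝ (Set.Icc (1 : ℝ) (3 / 2)) f := by
  apply AntitoneOn.concaveOn_of_deriv (convex_Icc _ _) continuous_f.continuousOn
    differentiable_f.differentiableOn
  intro x hx y hy h
  rw [interior_Icc] at hx hy
  rw [deriv_f]
  rcases h.lt_or_eq with h | h
  · exact (df_anti1 hx.1.le h hy.2.le).le
  · rw [h]

theorem f1_min {a c x q : ℝ} (ha : 1 ≤ a) (hc : c ≤ 3 / 2) (h1 : a ≤ x) (h2 : x ≤ c)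
    (hqa : q ≤ f a) (hqc : q ≤ f c) : q ≤ f x := by
  have := f_concave1.min_le_of_mem_Icc (x := a) (y := c) (z := x) ⟨ha, by linarith⟩ ⟨by linarith, hc⟩ ⟨h1, h2⟩
  exact le_trans (le_min hqa hqc) this

/-- `f ≤ 2.14` on `[1, 1+5/18]` -/
theorem f1_max {d : ℝ} (h0 : 0 ≤ d) (h1 : d ≤ 5 / 18) : f (1 + d) ≤ 2.14 := by
  refine le_trans (f1_ub h0 (by linarith)) ?_
  unfold Q
  have hR : 0 ≤ 2.7 - 3.7 * d - 2.1 * d ^ 2 - 2.03 * d ^ 3 := by nlinarith [mul_nonneg h0 (sq_nonneg d)]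
  nlinarith [mul_nonneg (sq_nonneg (d - 0.181)) (by nlinarith [mul_nonneg h0 (sq_nonneg d)] : (0:ℝ) ≤ 3.98 + 1.0 * d - 3.78 * d ^ 2 - 2.04 * d ^ 3), sq_nonneg (d - 0.181), mul_nonneg h0 (sq_nonneg (d - 0.181)), mul_nonneg h0 (mul_nonneg h0 h0)]

end Pool.Agent.H934R2.Ch
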