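import Pool.Agent.H934R2.Ch.Left
import Pool.Agent.H934R2.Ch.CycInt
import Pool.Agent.H934R2.Ch.Fin1
import Pool.Agent.H488R2.CH.Structure

/-!
Attracting cycles with `max ≤ 5 min` shadow integer cycles.
-/

set_option autoImplicit false

namespace Pool.Agent.H934R2.Ch

open Real

/-- the initial value of the potential -/
noncomputable def K0 (m : ℕ) : ℝ := 18.6 * (m : ℝ) ^ 2 + 9.3 * m + 1.316 * (m : ℝ) ^ 2 / 4

theorem St_small {m n : ℕ} (hm : 2 ≤ m) (h52 : 2 * n ≤ 5 * m) {δ : ℝ} (h0 : 0 < δ)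
    (hW : K0 m ≤ W n δ) : δ ≤ 0.082 ∧ (2 * n + 1) * δ ≤ 1.17 := by
  have hm' : (2 : ℝ) ≤ m := by exact_mod_cast hm
  have hn' : 2 * (n : ℝ) ≤ 5 * m := by exact_mod_cast h52
  have hn0 : (0 : ℝ) ≤ n := Nat.cast_nonneg n
  unfold W K0 at hW
  have h1 : 1.316 * (n : ℝ) ^ 2 ≤ 8.225 * (m : ℝ) ^ 2 := by nlinarith
  have h2 : 10.704 * (m : ℝ) ^ 2 + 9.3 * m ≤ n / δ := by linarith
  rw [le_div_iff₀ h0] at h2
  have h3 : (m : ℝ) * ((10.704 * m + 9.3) * δ) ≤ m * (5 / 2) := by nlinarith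
  have h4 : (10.704 * (m : ℝ) + 9.3) * δ ≤ 5 / 2 := le_of_mul_le_mul_left h3 (by linarith)
  have h5 : 0 ≤ ((m : ℝ) - 2) * δ := mul_nonneg (by linarith) h0.le
  constructor
  · nlinarith
  · have h6 : (2 * (n : ℝ) + 1) * δ ≤ (5 * m + 1) * δ :=
      mul_le_mul_of_nonneg_right (by linarith) h0.le
    nlinarith

theorem left_step {m n : ℕ} (hm : 2 ≤ m) (hn : 1 ≤ n) (h52 : 2 * n ≤ 5 * m)
    {δ : ℝ} (h0 : 0 < δ) (hW : K0 m ≤ W n δ) (hD : f (n - δ) ∉ D) :
    0 < (T n : ℝ) - f (n - δ) ∧ (T n : ℝ) - f (n - δ) < 1 / 4 ∧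
      W n δ ≤ W (T n) ((T n : ℝ) - f (n - δ)) ∧
      (n % 2 = 0 → W n δ < W (T n) ((T n : ℝ) - f (n - δ))) := by
  obtain ⟨h1, h2⟩ := St_small hm h52 h0 hW
  rcases Nat.mod_two_eq_zero_or_one n with h | h
  · have hn2 : 2 ≤ n := by omega
    have hpos : 0 < (T n : ℝ) - f (n - δ) := by
      by_contra hneg
      exact hD (left_even_trap h hn2 h0 (by linarith) (by linarith) (not_lt.1 hneg))
    have h3 := left_even h hn2 h0 (by linarith) hpos
    refine ⟨hpos, ?_, h3.le, fun _ => h3⟩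
    obtain ⟨h4, _⟩ := left_even_eq h δ
    have h5 := one_sub_cos_nonneg δ
    have h6 : (1 : ℝ) ≤ n := by exact_mod_cast hn
    have h7 : 0 ≤ ((2 * (n : ℝ) + 1) / 4 - δ / 2) * (1 - Real.cos (Real.pi * δ)) :=
      mul_nonneg (by linarith) h5
    linarith
  · obtain ⟨h3, h4, h5⟩ := left_odd h h0 (by linarith)
    refine ⟨h3, ?_, h5, fun h6 => by omega⟩
    have : 1.234 * (2 * (n : ℝ) + 1) * δ ^ 2 = 1.234 * (((2 * n + 1) * δ) * δ) := by ring
    rw [this] at h4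
    have h7 : ((2 * (n : ℝ) + 1) * δ) * δ ≤ 1.17 * 0.082 :=
      mul_le_mul h2 h1 h0.le (by norm_num)
    linarith

/-- the orbit stays to the left of the Collatz orbit as long as the latter is at most `5m/2` -/
theorem left_orbit {m : ℕ} (hm : 2 ≤ m) (hme : m % 2 = 0) {e : ℝ} (h0 : 0 < e)
    (hs : (2 * m + 1) * e ≤ 3 / 4) (hpos : f (m - e) < T m) (hD : ∀ k, f^[k] (m - e) ∉ D) (k : ℕ)
    (hk : ∀ i, i ≤ k → 2 * T^[i] m ≤ 5 * m) :
    0 < ((T^[k + 1] m : ℕ) : ℝ) - f^[k + 1] (m - e) ∧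
      ((T^[k + 1] m : ℕ) : ℝ) - f^[k + 1] (m - e) < 1 / 4 ∧
      K0 m ≤ W (T^[k + 1] m) (((T^[k + 1] m : ℕ) : ℝ) - f^[k + 1] (m - e)) := by
  induction k with
  | zero =>
    simp only [zero_add, Function.iterate_one]
    have h1 : 0 < (T m : ℝ) - f (m - e) := by linarith
    have h2 := left_start hme hm h0 hs h1
    have h3 := T_two_even hme
    have h4 := (St_small hm (n := T m) (by omega) h1 h2).1
    exact ⟨h1, by linarith, h2⟩
  | succ k ih =>
    obtain ⟨h1, _, h3⟩ := ih (fun i hi => hk i (by omega))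
    obtain ⟨n, hn⟩ : ∃ n, n = T^[k + 1] m := ⟨_, rfl⟩
    obtain ⟨δ, hδ⟩ : ∃ δ, δ = ((T^[k + 1] m : ℕ) : ℝ) - f^[k + 1] (m - e) := ⟨_, rfl⟩
    rw [← hδ] at h1 h3
    rw [← hn] at h3
    have hx : f^[k + 1] (m - e) = (n : ℝ) - δ := by rw [hδ, hn]; ring
    have hfx : f^[k + 1 + 1] (m - e) = f (n - δ) := by
      rw [Function.iterate_succ_apply', hx]
    have hTx : T^[k + 1 + 1] m = T n := by
      rw [Function.iterate_succ_apply', hn]
    have h4 := left_step hm (n := n) (by rw [hn]; exact T_iter_pos (by omega) _)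
      (by rw [hn]; exact hk _ le_rfl) h1 h3 (by rw [← hfx]; exact hD _)
    rw [hfx, hTx]
    exact ⟨h4.1, h4.2.1, le_trans h3 h4.2.2.1⟩

/-- a periodic orbit outside the trap with a point just below an even integer `m` whose image is
below `m / 2`: the Collatz orbit of `m` exceeds `5m/2` -/
theorem exceeds {m : ℕ} (hm : 2 ≤ m) (hme : m % 2 = 0) {e : ℝ} (h0 : 0 < e)
    (hs : (2 * m + 1) * e ≤ 3 / 4) (hpos : f (m - e) < T m) (hD : ∀ k, f^[k] (m - e) ∉ D)
    {p : ℕ} (hp : 0 < p) (hper : f^[p] (m - e) = m - e) : ∃ k, 5 * m < 2 * T^[k] m := by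
  by_contra hcon
  simp only [not_exists, not_lt] at hcon
  have hm' : (2 : ℝ) ≤ m := by exact_mod_cast hm
  have horb := fun k => left_orbit hm hme h0 hs hpos hD k (fun i _ => hcon i)
  -- monotonicity of the potential
  have hstep : ∀ k, W (T^[k + 1] m) (((T^[k + 1] m : ℕ) : ℝ) - f^[k + 1] (m - e)) ≤
      W (T^[k + 2] m) (((T^[k + 2] m : ℕ) : ℝ) - f^[k + 2] (m - e)) ∧
      (T^[k + 1] m % 2 = 0 → W (T^[k + 1] m) (((T^[k + 1] m : ℕ) : ℝ) - f^[k + 1] (m - e)) <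
      W (T^[k + 2] m) (((T^[k + 2] m : ℕ) : ℝ) - f^[k + 2] (m - e))) := by
    intro k
    obtain ⟨h1, _, h3⟩ := horb k
    obtain ⟨n, hn⟩ : ∃ n, n = T^[k + 1] m := ⟨_, rfl⟩
    obtain ⟨δ, hδ⟩ : ∃ δ, δ = ((T^[k + 1] m : ℕ) : ℝ) - f^[k + 1] (m - e) := ⟨_, rfl⟩
    have hx : f^[k + 1] (m - e) = (n : ℝ) - δ := by rw [hδ, hn]; ring
    have hfx : f^[k + 2] (m - e) = f (n - δ) := by
      rw [Function.iterate_succ_apply', hx]
    have hTx : T^[k + 2] m = T n := by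
      rw [Function.iterate_succ_apply', hn]
    rw [← hδ] at h1 h3 ⊢
    rw [← hn] at h3 ⊢
    have h4 := left_step hm (n := n) (by rw [hn]; exact T_iter_pos (by omega) _)
      (by rw [hn]; exact hcon _) h1 h3 (by rw [← hfx]; exact hD _)
    rw [hfx, hTx]
    exact h4.2.2
  have hmono : ∀ j k, j ≤ k → W (T^[j + 1] m) (((T^[j + 1] m : ℕ) : ℝ) - f^[j + 1] (m - e)) ≤
      W (T^[k + 1] m) (((T^[k + 1] m : ℕ) : ℝ) - f^[k + 1] (m - e)) := by
    intro j k hjk
    induction k, hjk using Nat.le_induction with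
    | base => exact le_rfl
    | succ k _ ih => exact le_trans ih (hstep k).1
  obtain ⟨q, rfl⟩ : ∃ q, p = q + 1 := ⟨p - 1, by omega⟩
  -- T^p m = m
  have he : e ≤ 0.15 := by nlinarith
  have hTm : T^[q + 1] m = m := by
    have h1 := (horb q).1
    have h2 := (horb q).2.1
    rw [hper] at h1 h2
    have h3 : (m : ℝ) < (T^[q + 1] m : ℕ) + 1 := by linarith
    have h4 : ((T^[q + 1] m : ℕ) : ℝ) < m + 1 := by linarith
    have h5 : m < T^[q + 1] m + 1 := by exact_mod_cast h3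
    have h6 : T^[q + 1] m < m + 1 := by exact_mod_cast h4
    omega
  have hlast := (hstep q).2 (by rw [hTm]; exact hme)
  have h1 : T^[q + 2] m = T^[0 + 1] m := by
    rw [Function.iterate_succ_apply', hTm]; rfl
  have h2 : f^[q + 2] (m - e) = f^[0 + 1] (m - e) := by
    rw [Function.iterate_succ_apply', hper]; rfl
  rw [h1, h2] at hlast
  have h3 := hmono 0 q (Nat.zero_le q)
  linarith

/-- ... and then the real orbit exceeds `5m/2`, too -/
theorem exceeds' {m : ℕ} (hm : 2 ≤ m) (hme : m % 2 = 0) {e : ℝ} (h0 : 0 < e)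
    (hs : (2 * m + 1) * e ≤ 3 / 4) (hpos : f (m - e) < T m) (hD : ∀ k, f^[k] (m - e) ∉ D)
    {p : ℕ} (hp : 0 < p) (hper : f^[p] (m - e) = m - e) :
    ∃ k, 5 * m < 2 * T^[k] m ∧ (∀ i, 1 ≤ i → i ≤ k →
      f^[i] (m - e) ∈ Set.Ioo (((T^[i] m : ℕ) : ℝ) - 1 / 4) (T^[i] m : ℕ)) := by
  classical
  have hex := exceeds hm hme h0 hs hpos hD hp hper
  refine ⟨Nat.find hex, Nat.find_spec hex, ?_⟩
  intro i hi1 hi2
  obtain ⟨j, rfl⟩ : ∃ j, i = j + 1 := ⟨i - 1, by omega⟩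
  have hlt : ∀ i, i ≤ j → 2 * T^[i] m ≤ 5 * m := fun i hi => by
    have := Nat.find_min hex (m := i) (by omega)
    exact not_lt.1 this
  have h1 := left_orbit hm hme h0 hs hpos hD j hlt
  constructor <;> linarith [h1.1, h1.2.1]

/-! ### the classification -/

theorem f_eq_F : f = H488R2.CH.F := by
  funext x; unfold f H488R2.CH.F; ring

theorem df_eq_F' : df = H488R2.CH.F' := by
  funext x; unfold df H488R2.CH.F'; ring

theorem T_eq : T = H488R2.CH.T := rfl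

/-- a nontrivial periodic orbit of `T` has an even element -/
theorem exists_even_iter {n : ℕ} {p : ℕ} (hp : 0 < p) (hper : T^[p] n = n) :
    ∃ k, T^[k] n % 2 = 0 := by
  by_contra h
  simp only [not_exists] at h
  have hinc : ∀ k, n + k ≤ T^[k] n := by
    intro k
    induction k with
    | zero => simp
    | succ k ih =>
      have h1 := T_two_odd (n := T^[k] n) (by have := h k; omega)
      rw [Function.iterate_succ_apply']
      omega
  have := hinc p
  omega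

/-- **Classification of the attracting cycles.** -/
theorem attracting_class {a : ℝ} (ha : a ∈ Set.Icc (1.19 : ℝ) 1.196) (hga : g a = a)
    {y : ℝ} (hy : AttrPt y) :
    Known a y ∨
    (∃ m : ℕ, 3 ≤ m ∧ T^[Function.minimalPeriod f y] m = m ∧
      (∀ k, f^[k] y ∈ Set.Icc ((T^[k] m : ℕ) : ℝ) ((T^[k] m : ℕ) + b (T^[k] m))) ∧
      ∃ i j, 3 * f^[j] y < f^[i] y) ∨
    ((∃ i j, 5 * f^[j] y < f^[i] y) ∧ (∀ x ∈ D, ¬ Attracts y x) ∧
      (∃ k, |df (f^[k] y)| < 1) ∧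
      ∀ k, |df (f^[k] y)| < 1 → ∃ n : ℕ, n % 2 = 0 ∧ 2 ≤ n ∧
        f^[k] y ∈ Set.Ioo ((n : ℝ) - 3 / (4 * (2 * n + 1))) n ∧
        f^[k + 1] y ∈ Set.Ico ((n : ℝ) / 2 - 5 / (93 * (2 * n + 1))) (n / 2) ∧
        ∃ l, 5 * n < 2 * T^[l] n ∧ ∀ i, 1 ≤ i → i ≤ l →
          f^[k + i] y ∈ Set.Ioo (((T^[i] n : ℕ) : ℝ) - 1 / 4) (T^[i] n : ℕ)) := by
  rcases trichotomy ha hga hy with h | ⟨m, hm, hT, hym⟩ | ⟨hD, hA⟩
  · left; exact h
  · right; left
    have hshadow := shadow (by omega : 1 ≤ m) hym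
    refine ⟨m, hm, hT, hshadow, ?_⟩
    by_contra hne
    simp only [not_exists, not_lt] at hne
    have h1 : ∀ i j, T^[i] m ≤ 3 * T^[j] m := by
      intro i j
      have h2 := hne i j
      have h3 := (hshadow i).1
      have h4 := (hshadow j).2
      have h5 := b_le (T_iter_pos (by omega : 1 ≤ m) j)
      have h6 : ((T^[i] m : ℕ) : ℝ) < 3 * (T^[j] m : ℕ) + 1 := by linarith
      have h7 : T^[i] m < 3 * T^[j] m + 1 := by exact_mod_cast h6
      omega
    have := cycle_spread (by omega : 1 ≤ m) hy.2.1 hT h1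
    omega
  · right; right
    have hper : f^[Function.minimalPeriod f y] y = y := Function.iterate_minimalPeriod
    obtain ⟨p, hpdef⟩ : ∃ p, p = Function.minimalPeriod f y := ⟨_, rfl⟩
    have hp : 0 < p := by rw [hpdef]; exact hy.2.1
    rw [← hpdef] at hper
    have hperF : H488R2.CH.F^[p] y = y := by rw [← f_eq_F]; exact hper
    have hdich := H488R2.CH.dichotomy hy.1 hp hperF
    have hsmall : ∃ i < p, |H488R2.CH.F' (H488R2.CH.F^[i] y)| < 1 := by
      apply H488R2.CH.exists_small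
      have h1 := hy.2.2
      rw [← hpdef, deriv_iter, df_eq_F', f_eq_F] at h1
      exact h1
    have hsmall' : ∃ k, |df (f^[k] y)| < 1 := by
      obtain ⟨i, _, hi⟩ := hsmall
      exact ⟨i, by rw [f_eq_F, df_eq_F']; exact hi⟩
    -- the first alternative of the dichotomy is impossible
    have hno : ∀ k, |df (f^[k] y)| < 1 → ∃ n : ℕ, n % 2 = 0 ∧ 2 ≤ n ∧ f^[k] y < n ∧
        (2 * (n : ℝ) + 1) * (n - f^[k] y) < 0.75 ∧ f^[k + 1] y < T n := by
      rcases hdich with ⟨n, hn, hTn, hk⟩ | hk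
      · exfalso
        rw [← T_eq] at hTn
        obtain ⟨k, hke⟩ := exists_even_iter hp hTn
        have h1 := (hk k).2
        rw [← f_eq_F, ← T_eq] at h1
        have h2 := h1.2
        have h3 : H488R2.CH.wid (T^[k] n) = 0.73 / (2 * ((T^[k] n : ℕ) : ℝ) + 1) := by
          unfold H488R2.CH.wid; rw [if_pos hke]
        rw [h3] at h2
        apply hD k
        refine ⟨T^[k] n, T_iter_pos hn k, h1.1, le_trans h2 ?_⟩
        have h4 : 0.73 / (2 * ((T^[k] n : ℕ) : ℝ) + 1) ≤ b (T^[k] n) := by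
          unfold b
          rw [div_le_div_iff₀ (by positivity) (by positivity)]
          have : (0 : ℝ) ≤ ((T^[k] n : ℕ) : ℝ) := Nat.cast_nonneg _
          linarith
        linarith
      · intro k hdk
        obtain ⟨n, h1, h2, h3, h4, h5⟩ := hk k (by rw [← f_eq_F, ← df_eq_F']; exact hdk)
        rw [← f_eq_F] at h3 h4 h5
        exact ⟨n, h1, h2, h3, h4, h5⟩
    have hmain : ∀ k, |df (f^[k] y)| < 1 → ∃ n : ℕ, n % 2 = 0 ∧ 2 ≤ n ∧
        f^[k] y ∈ Set.Ioo ((n : ℝ) - 3 / (4 * (2 * n + 1))) n ∧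
        f^[k + 1] y ∈ Set.Ico ((n : ℝ) / 2 - 5 / (93 * (2 * n + 1))) (n / 2) ∧
        ∃ l, 5 * n < 2 * T^[l] n ∧ ∀ i, 1 ≤ i → i ≤ l →
          f^[k + i] y ∈ Set.Ioo (((T^[i] n : ℕ) : ℝ) - 1 / 4) (T^[i] n : ℕ) := by
      intro k hdk
      obtain ⟨n, hne, hn2, h3, h4, h5⟩ := hno k hdk
      obtain ⟨e, he⟩ : ∃ e, e = (n : ℝ) - f^[k] y := ⟨_, rfl⟩
      have hx : f^[k] y = n - e := by rw [he]; ring
      have hiter : ∀ i, f^[i] (n - e) = f^[i + k] y := by
        intro i; rw [← hx, ← Function.iterate_add_apply]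
      have he0 : 0 < e := by rw [he]; linarith
      have hs : (2 * (n : ℝ) + 1) * e ≤ 3 / 4 := by rw [he]; linarith
      have hT2 : (T n : ℝ) = n / 2 := (left_even_eq hne 0).2
      have hfx : f^[k + 1] y = f (n - e) := by rw [Function.iterate_succ_apply', hx]
      have hfx1 : f (n - e) < T n := by rw [← hfx]; exact h5
      have hn2' : (2 : ℝ) ≤ n := by exact_mod_cast hn2
      obtain ⟨l, hl, hl'⟩ := exceeds' hn2 hne he0 hs hfx1 (fun i => by rw [hiter]; exact hD _) hp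
        (by rw [hiter, add_comm, Function.iterate_add_apply, hper]; exact hx)
      refine ⟨n, hne, hn2, ⟨?_, h3⟩, ⟨?_, ?_⟩, l, hl, fun i hi1 hi2 => ?_⟩
      · have h7 : (n : ℝ) - f^[k] y < 3 / (4 * (2 * n + 1)) := by
          rw [lt_div_iff₀ (by positivity)]
          nlinarith
        linarith
      · rw [hfx]
        have h8 := left_start hne hn2 he0 hs (by linarith)
        unfold W at h8
        rw [hT2] at h8 hfx1
        have hδ : 0 < (n : ℝ) / 2 - f (n - e) := by linarith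
        have h9 : 18.6 * (n : ℝ) ^ 2 + 9.3 * n ≤ (n : ℝ) / 2 / ((n : ℝ) / 2 - f (n - e)) := by nlinarith
        rw [le_div_iff₀ hδ] at h9
        have h10 : (n : ℝ) * ((18.6 * n + 9.3) * ((n : ℝ) / 2 - f (n - e))) ≤ n * (1 / 2) := by
          nlinarith
        have h11 := le_of_mul_le_mul_left h10 (by linarith)
        have h12 : (n : ℝ) / 2 - f (n - e) ≤ 5 / (93 * (2 * n + 1)) := by
          rw [le_div_iff₀ (by positivity)]
          nlinarith
        linarith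
      · rw [← hT2]; exact h5
      · have := hl' i hi1 hi2
        rw [hiter, add_comm] at this
        exact this
    refine ⟨?_, hA, hsmall', hmain⟩
    obtain ⟨k, hk⟩ := hsmall'
    obtain ⟨n, hne, hn2, h3, h4, l, hl, hl'⟩ := hmain k hk
    have hl1 : 1 ≤ l := by
      rcases Nat.eq_zero_or_pos l with h | h
      · subst h; simp only [Function.iterate_zero, id] at hl; omega
      · exact h
    refine ⟨k + l, k + 1, ?_⟩
    have h5 := (hl' l hl1 le_rfl).1
    have h6 := h4.2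
    have h7 : 5 * (n : ℝ) + 1 ≤ 2 * (T^[l] n : ℕ) := by
      have : 5 * n + 1 ≤ 2 * T^[l] n := hl
      exact_mod_cast this
    linarith

end Pool.Agent.H934R2.Ch
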